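import Mathlib

/-! Facts on standard Gaussian measures (helper41, for MP_569b71_an). -/

namespace Pool.Agent.Helper41.RSVD

open MeasureTheory ProbabilityTheory Module Filter Topology
open scoped ENNReal NNReal RealInnerProductSpace

theorem integral_exp_one (t : ℝ) (ht : 0 ≤ t) :
    ∫ x, Real.exp (-t * x ^ 2) ∂(gaussianReal 0 1) = (√(1 + 2 * t))⁻¹ := by
  rw [integral_gaussianReal_eq_integral_smul (by norm_num)]
  simp only [gaussianPDFReal_def, smul_eq_mul]
  have h1 : ∀ x : ℝ, (√(2 * Real.pi * ((1 : ℝ≥0) : ℝ)))⁻¹ * Real.exp (-(x - 0) ^ 2 / (2 * ((1 : ℝ≥0) : ℝ))) *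
      Real.exp (-t * x ^ 2) = (√(2 * Real.pi))⁻¹ * Real.exp (-(t + 1/2) * x ^ 2) := by
    intro x
    rw [mul_assoc, ← Real.exp_add]
    congr 2
    · simp
    · simp
      ring
  simp_rw [h1]
  rw [integral_const_mul, integral_gaussian]
  rw [← Real.sqrt_inv, ← Real.sqrt_inv, ← Real.sqrt_mul (by positivity)]
  congr 1
  have hp : Real.pi ≠ 0 := Real.pi_ne_zero
  have h2 : t + 1/2 ≠ 0 := by positivity
  have h3 : 1 + 2 * t ≠ 0 := by positivity
  field_simp
  ring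

variable {V : Type*} [NormedAddCommGroup V] [InnerProductSpace ℝ V] [FiniteDimensional ℝ V]
  [MeasurableSpace V] [BorelSpace V]

omit [MeasurableSpace V] [BorelSpace V] in
theorem norm_sq_sum_basis (x : Fin (finrank ℝ V) → ℝ) :
    ‖∑ i, x i • stdOrthonormalBasis ℝ V i‖ ^ 2 = ∑ i, x i ^ 2 := by
  rw [← real_inner_self_eq_norm_sq, (stdOrthonormalBasis ℝ V).orthonormal.inner_sum]
  simp [pow_two]

theorem integral_exp_norm (t : ℝ) (ht : 0 ≤ t) :
    ∫ x, Real.exp (-t * ‖x‖ ^ 2) ∂(stdGaussian V) = ((√(1 + 2 * t))⁻¹) ^ (finrank ℝ V) := by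
  rw [stdGaussian, integral_map (Measurable.aemeasurable (by fun_prop))
    (Measurable.aestronglyMeasurable (by fun_prop))]
  have h1 : ∀ x : Fin (finrank ℝ V) → ℝ, Real.exp (-t * ‖∑ i, x i • stdOrthonormalBasis ℝ V i‖ ^ 2) =
      ∏ i, Real.exp (-t * x i ^ 2) := by
    intro x
    rw [← Real.exp_sum, ← Finset.mul_sum, norm_sq_sum_basis]
  simp_rw [h1]
  rw [integral_fintype_prod_eq_prod (f := fun i x ↦ Real.exp (-t * x ^ 2))]
  simp_rw [integral_exp_one t ht]
  simp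

theorem lintegral_exp_norm (t : ℝ) (ht : 0 ≤ t) :
    ∫⁻ x, ENNReal.ofReal (Real.exp (-t * ‖x‖ ^ 2)) ∂(stdGaussian V) =
      ENNReal.ofReal (((√(1 + 2 * t))⁻¹) ^ (finrank ℝ V)) := by
  rw [← integral_exp_norm t ht, ofReal_integral_eq_lintegral_ofReal]
  · refine Integrable.of_bound (C := 1) (Measurable.aestronglyMeasurable (by fun_prop)) ?_
    refine Eventually.of_forall fun x => ?_
    rw [Real.norm_of_nonneg (Real.exp_nonneg _), Real.exp_le_one_iff]
    have : 0 ≤ t * ‖x‖ ^ 2 := by positivity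
    linarith
  · exact Eventually.of_forall fun x => Real.exp_nonneg _

theorem lintegral_exp_Ioi (c : ℝ) (hc : 0 < c) :
    ∫⁻ t in Set.Ioi (0:ℝ), ENNReal.ofReal (Real.exp (-t * c)) = ENNReal.ofReal (1 / c) := by
  have h1 : ∀ t : ℝ, Real.exp (-t * c) = Real.exp (-c * t) := fun t => by congr 1; ring
  simp_rw [h1]
  rw [← ofReal_integral_eq_lintegral_ofReal]
  · congr 1
    rw [integral_exp_mul_Ioi (by linarith)]
    simp
  · exact integrableOn_exp_mul_Ioi (by linarith) 0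
  · exact Eventually.of_forall fun x => Real.exp_nonneg _

theorem lintegral_sqrt_Ioi (k : ℕ) (hk : 0 < k) :
    ∫⁻ t in Set.Ioi (0:ℝ), ENNReal.ofReal (((√(1 + 2 * t))⁻¹) ^ (k + 2)) =
      ENNReal.ofReal (1 / k) := by
  have hk' : (k : ℝ) ≠ 0 := by exact_mod_cast hk.ne'
  have hd : ∀ t ∈ Set.Ici (0:ℝ), HasDerivAt (fun t : ℝ => -(1/(k:ℝ)) * ((√(1 + 2 * t))⁻¹) ^ k)
      (((√(1 + 2 * t))⁻¹) ^ (k + 2)) t := by
    intro t ht
    have ht' : (0:ℝ) ≤ t := ht
    have h0 : (0:ℝ) < 1 + 2 * t := by positivity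
    have h1 : HasDerivAt (fun t : ℝ => 1 + 2 * t) 2 t := by
      simpa using ((hasDerivAt_id t).const_mul 2).const_add 1
    have h2 := h1.sqrt h0.ne'
    have hs : √(1 + 2 * t) ≠ 0 := (Real.sqrt_pos.mpr h0).ne'
    have h3 := ((h2.inv hs).pow k).const_mul (-(1/(k:ℝ)))
    have h4 : HasDerivAt (fun t : ℝ => -(1/(k:ℝ)) * ((√(1 + 2 * t))⁻¹) ^ k)
      (-(1/(k:ℝ)) * ((k:ℝ) * ((√(1 + 2 * t))⁻¹) ^ (k - 1) *
        (-(2 / (2 * √(1 + 2 * t))) / √(1 + 2 * t) ^ 2))) t := h3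
    refine h4.congr_deriv ?_
    obtain ⟨m, rfl⟩ : ∃ m, k = m + 1 := ⟨k - 1, by omega⟩
    rw [Nat.add_sub_cancel]
    have hm : ((m + 1 : ℕ) : ℝ) ≠ 0 := hk'
    field_simp
    rw [show m + 1 + 2 = m + 3 by ring, pow_add]
    field_simp
  have hpos : ∀ t ∈ Set.Ioi (0:ℝ), 0 ≤ ((√(1 + 2 * t))⁻¹) ^ (k + 2) := fun t _ => by positivity
  have hlim : Tendsto (fun t : ℝ => -(1/(k:ℝ)) * ((√(1 + 2 * t))⁻¹) ^ k) atTop (𝓝 0) := by
    have h1 : Tendsto (fun t : ℝ => 1 + 2 * t) atTop atTop :=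
      tendsto_atTop_add_const_left _ _ (tendsto_id.const_mul_atTop (by norm_num))
    have h2 : Tendsto (fun t : ℝ => (√(1 + 2 * t))⁻¹) atTop (𝓝 0) :=
      (Real.tendsto_sqrt_atTop.comp h1).inv_tendsto_atTop
    have h3 := (h2.pow k).const_mul (-(1/(k:ℝ)))
    simpa [hk.ne'] using h3
  rw [← ofReal_integral_eq_lintegral_ofReal]
  · congr 1
    rw [integral_Ioi_of_hasDerivAt_of_nonneg' hd hpos hlim]
    simp
  · exact integrableOn_Ioi_deriv_of_nonneg' hd hpos hlim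
  · exact (ae_restrict_iff' measurableSet_Ioi).mpr (Eventually.of_forall hpos)

omit [BorelSpace V] in
theorem ae_inner_ne (e : V) (he : ‖e‖ = 1) [BorelSpace V] : ∀ᵐ x ∂(stdGaussian V), ⟪e, x⟫ ≠ 0 := by
  have h1 : (stdGaussian V).map (innerSL ℝ e) = gaussianReal 0 1 := by
    rw [IsGaussian.map_eq_gaussianReal]
    rw [integral_strongDual_stdGaussian, variance_dual_stdGaussian]
    simp [he]
  have h2 : (gaussianReal 0 1) {0} = 0 := by
    have := nullSingletonClass_gaussianReal (μ := 0) (v := 1) (by norm_num)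
    exact measure_singleton 0
  rw [← h1, Measure.map_apply (by fun_prop) (measurableSet_singleton 0)] at h2
  rw [ae_iff]
  convert h2 using 2
  ext x
  simp

theorem null_submodule (W : Submodule ℝ V) (hW : W ≠ ⊤) : ∀ᵐ x ∂(stdGaussian V), x ∉ W := by
  have h1 : Wᗮ ≠ ⊥ := by
    intro h
    exact hW ((Submodule.orthogonal_eq_bot_iff).mp h)
  obtain ⟨e, heW, he0⟩ := (Submodule.ne_bot_iff _).mp h1
  set e' : V := (‖e‖⁻¹ : ℝ) • e with he'
  have hn : ‖e'‖ = 1 := by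
    rw [he', norm_smul, norm_inv, norm_norm, inv_mul_cancel₀ (norm_ne_zero_iff.mpr he0)]
  have hWe : e' ∈ Wᗮ := Submodule.smul_mem _ _ heW
  filter_upwards [ae_inner_ne e' hn] with x hx hxW
  exact hx (by rw [real_inner_comm]; exact Submodule.inner_right_of_mem_orthogonal hxW hWe)

/-- `E |x|^{-2} = 1/(N-2)` for a standard Gaussian vector in dimension `N ≥ 3`. -/
theorem lintegral_inv_norm_sq (k : ℕ) (hk : 0 < k) (hN : finrank ℝ V = k + 2) :
    ∫⁻ x, ENNReal.ofReal (1 / ‖x‖ ^ 2) ∂(stdGaussian V) = ENNReal.ofReal (1 / k) := by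
  have hne : ∀ᵐ x ∂(stdGaussian V), x ≠ 0 := by
    have hbot : (⊥ : Submodule ℝ V) ≠ ⊤ := by
      intro h
      have : finrank ℝ (⊤ : Submodule ℝ V) = 0 := by rw [← h]; simp
      rw [finrank_top] at this
      omega
    filter_upwards [null_submodule ⊥ hbot] with x hx h0
    exact hx (by simp [h0])
  calc ∫⁻ x, ENNReal.ofReal (1 / ‖x‖ ^ 2) ∂(stdGaussian V)
      = ∫⁻ x, (∫⁻ t in Set.Ioi (0:ℝ), ENNReal.ofReal (Real.exp (-t * ‖x‖ ^ 2))) ∂(stdGaussian V) := by
        refine lintegral_congr_ae ?_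
        filter_upwards [hne] with x hx
        rw [lintegral_exp_Ioi _ (by positivity)]
    _ = ∫⁻ t in Set.Ioi (0:ℝ), (∫⁻ x, ENNReal.ofReal (Real.exp (-t * ‖x‖ ^ 2)) ∂(stdGaussian V)) := by
        rw [lintegral_lintegral_swap]
        exact Measurable.aemeasurable (by fun_prop)
    _ = ∫⁻ t in Set.Ioi (0:ℝ), ENNReal.ofReal (((√(1 + 2 * t))⁻¹) ^ (k + 2)) := by
        refine setLIntegral_congr_fun measurableSet_Ioi ?_
        intro t ht
        have ht' : (0:ℝ) < t := ht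
        simp only
        rw [lintegral_exp_norm t ht'.le, hN]
    _ = _ := lintegral_sqrt_Ioi k hk

/-- The orthogonal projection of a standard Gaussian vector is standard Gaussian. -/
theorem map_proj (W : Submodule ℝ V) :
    (stdGaussian V).map (W.orthogonalProjectionOnto : V → W) = stdGaussian W := by
  apply Measure.ext_of_charFun
  ext t
  rw [charFun_stdGaussian, charFun_apply, integral_map (Measurable.aemeasurable (by fun_prop))
    (Measurable.aestronglyMeasurable (by fun_prop))]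
  have h1 : ∀ x : V, ⟪W.orthogonalProjectionOnto x, t⟫ = ⟪x, (t : V)⟫ := by
    intro x
    exact Submodule.inner_orthogonalProjectionOnto_eq_of_mem_right t x
  simp_rw [h1]
  rw [← charFun_apply, charFun_stdGaussian]
  rfl

theorem lintegral_inv_proj_sq (W : Submodule ℝ V) (k : ℕ) (hk : 0 < k) (hN : finrank ℝ W = k + 2) :
    ∫⁻ x, ENNReal.ofReal (1 / ‖W.orthogonalProjectionOnto x‖ ^ 2) ∂(stdGaussian V) =
      ENNReal.ofReal (1 / k) := by
  rw [← lintegral_inv_norm_sq k hk hN, ← map_proj W, lintegral_map (by fun_prop) (by fun_prop)]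

end Pool.Agent.Helper41.RSVD
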