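import Mathlib
import Pool.Agent.Helper41.RSVD.Gauss

/-! Gaussian vectors over `𝕜` (helper41, for MP_569b71_an). -/

namespace Pool.Agent.Helper41.RSVD

open MeasureTheory ProbabilityTheory Module Filter Topology
open scoped ENNReal NNReal RealInnerProductSpace

section real

variable {V : Type*} [NormedAddCommGroup V] [InnerProductSpace ℝ V] [FiniteDimensional ℝ V]
  [MeasurableSpace V] [BorelSpace V]

theorem integrable_norm_sq : Integrable (fun x : V => ‖x‖ ^ 2) (stdGaussian V) := by
  have h := (IsGaussian.memLp_two_id (μ := stdGaussian V)).integrable_norm_pow (by norm_num)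
  simpa using h

theorem integral_norm_sq : ∫ x : V, ‖x‖ ^ 2 ∂(stdGaussian V) = finrank ℝ V := by
  have h1 : ∀ x : V, ‖x‖ ^ 2 = ∑ i, (innerSL ℝ (stdOrthonormalBasis ℝ V i) x) ^ 2 := by
    intro x
    have := (stdOrthonormalBasis ℝ V).sum_sq_inner_right x
    simp only [innerSL_apply_apply]
    rw [this]
  simp_rw [h1]
  rw [integral_finsetSum]
  · have h2 : ∀ i, ∫ x, (innerSL ℝ (stdOrthonormalBasis ℝ V i) x) ^ 2 ∂(stdGaussian V) = 1 := by
      intro i
      have h3 := variance_dual_stdGaussian (E := V) (innerSL ℝ (stdOrthonormalBasis ℝ V i))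
      rw [variance_of_integral_eq_zero] at h3
      · rw [h3]
        simp
      · exact (by fun_prop : Measurable _).aemeasurable
      · exact integral_strongDual_stdGaussian _
    simp_rw [h2]
    simp
  · intro i _
    have h4 : MemLp (innerSL ℝ (stdOrthonormalBasis ℝ V i)) 2 (stdGaussian V) :=
      IsGaussian.memLp_dual _ _ _ (by norm_num)
    have := h4.integrable_sq
    exact this

theorem stdGaussian_neg : (stdGaussian V).map (fun x => -x) = stdGaussian V :=
  stdGaussian_map (LinearIsometryEquiv.neg ℝ (E := V))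

variable {K : Type*} [Fintype K] [DecidableEq K]

theorem integral_flip (k : K) (f : (K → V) → ℝ)
    (hf : ∀ a, f (fun i => if i = k then - a i else a i) = - f a) :
    ∫ a, f a ∂(Measure.pi fun _ : K => stdGaussian V) = 0 := by
  set g : (K → V) → (K → V) := fun a i => if i = k then - a i else a i with hg
  have hmp : MeasurePreserving g (Measure.pi fun _ : K => stdGaussian V)
      (Measure.pi fun _ : K => stdGaussian V) := by
    have : ∀ i : K, MeasurePreserving (fun x : V => if i = k then - x else x)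
        (stdGaussian V) (stdGaussian V) := by
      intro i
      by_cases h : i = k
      · simp only [h, if_true]
        exact ⟨by fun_prop, stdGaussian_neg⟩
      · simp only [h, if_false]
        exact MeasurePreserving.id _
    exact measurePreserving_pi _ _ this
  have hemb : MeasurableEmbedding g := by
    have hinv : Function.Involutive g := by
      intro a
      funext i
      simp only [hg]
      by_cases h : i = k <;> simp [h]
    exact (MeasurableEquiv.mk (Function.Involutive.toPerm g hinv) hmp.measurable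
      hmp.measurable).measurableEmbedding
  have h1 := hmp.integral_comp hemb f
  have h2 : ∫ a, f (g a) ∂(Measure.pi fun _ : K => stdGaussian V) =
      - ∫ a, f a ∂(Measure.pi fun _ : K => stdGaussian V) := by
    rw [← integral_neg]
    exact integral_congr_ae (Eventually.of_forall fun a => hf a)
  linarith

end real

section rclike

variable {𝕜 : Type*} [RCLike 𝕜] [MeasurableSpace 𝕜] [BorelSpace 𝕜]
variable {I I1 I2 : Type*} [Fintype I] [Fintype I1] [Fintype I2]

set_option linter.unusedSectionVars false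

omit [MeasurableSpace 𝕜] [BorelSpace 𝕜] in
theorem real_inner_eq (x y : EuclideanSpace 𝕜 I) : ⟪x, y⟫ = RCLike.re (inner 𝕜 x y) := by
  rw [PiLp.inner_apply, PiLp.inner_apply, map_sum]
  rfl

/-- Combine two vectors. -/
noncomputable def J (p : EuclideanSpace 𝕜 I1 × EuclideanSpace 𝕜 I2) : EuclideanSpace 𝕜 (I1 ⊕ I2) :=
  WithLp.toLp 2 (Sum.elim (WithLp.ofLp p.1) (WithLp.ofLp p.2))

omit [BorelSpace 𝕜] [Fintype I1] [Fintype I2] in
theorem J_inl (p : EuclideanSpace 𝕜 I1 × EuclideanSpace 𝕜 I2) (i : I1) : J p (Sum.inl i) = p.1 i := rfl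

omit [BorelSpace 𝕜] [Fintype I1] [Fintype I2] in
theorem J_inr (p : EuclideanSpace 𝕜 I1 × EuclideanSpace 𝕜 I2) (i : I2) : J p (Sum.inr i) = p.2 i := rfl

omit [MeasurableSpace 𝕜] [BorelSpace 𝕜] in
theorem J_continuous : Continuous (J : EuclideanSpace 𝕜 I1 × EuclideanSpace 𝕜 I2 → _) := by
  refine (PiLp.continuous_toLp 2 _).comp ?_
  refine continuous_pi ?_
  rintro (i | i)
  · exact (continuous_apply i).comp ((PiLp.continuous_ofLp 2 _).comp continuous_fst)
  · exact (continuous_apply i).comp ((PiLp.continuous_ofLp 2 _).comp continuous_snd)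

theorem J_measurable : Measurable (J : EuclideanSpace 𝕜 I1 × EuclideanSpace 𝕜 I2 → _) :=
  J_continuous.measurable

theorem map_J : ((stdGaussian (EuclideanSpace 𝕜 I1)).prod (stdGaussian (EuclideanSpace 𝕜 I2))).map J =
    stdGaussian (EuclideanSpace 𝕜 (I1 ⊕ I2)) := by
  apply Measure.ext_of_charFun
  ext t
  rw [charFun_stdGaussian, charFun_apply, integral_map J_measurable.aemeasurable
    (Measurable.aestronglyMeasurable (by fun_prop))]
  set t1 : EuclideanSpace 𝕜 I1 := WithLp.toLp 2 fun i => t (Sum.inl i) with ht1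
  set t2 : EuclideanSpace 𝕜 I2 := WithLp.toLp 2 fun i => t (Sum.inr i) with ht2
  have h1 : ∀ p : EuclideanSpace 𝕜 I1 × EuclideanSpace 𝕜 I2,
      Complex.exp ((⟪J p, t⟫ : ℝ) * Complex.I) =
        Complex.exp ((⟪p.1, t1⟫ : ℝ) * Complex.I) * Complex.exp ((⟪p.2, t2⟫ : ℝ) * Complex.I) := by
    intro p
    rw [← Complex.exp_add, ← add_mul, ← Complex.ofReal_add]
    congr 3
    rw [PiLp.inner_apply, PiLp.inner_apply, PiLp.inner_apply, Fintype.sum_sum_type]
    rfl
  simp_rw [h1]
  rw [integral_prod_mul (fun a : EuclideanSpace 𝕜 I1 => Complex.exp ((⟪a, t1⟫ : ℝ) * Complex.I))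
    (fun b : EuclideanSpace 𝕜 I2 => Complex.exp ((⟪b, t2⟫ : ℝ) * Complex.I)), ← charFun_apply,
    ← charFun_apply, charFun_stdGaussian, charFun_stdGaussian, ← Complex.exp_add]
  congr 1
  rw [← add_div, ← neg_add]
  congr 2
  norm_cast
  rw [EuclideanSpace.norm_sq_eq, EuclideanSpace.norm_sq_eq, EuclideanSpace.norm_sq_eq,
    Fintype.sum_sum_type]

theorem mp_J : MeasurePreserving J
    ((stdGaussian (EuclideanSpace 𝕜 I1)).prod (stdGaussian (EuclideanSpace 𝕜 I2)))
    (stdGaussian (EuclideanSpace 𝕜 (I1 ⊕ I2))) := ⟨J_measurable, map_J⟩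

/-- The law of an `s`-tuple of standard Gaussian vectors. -/
noncomputable def γ (𝕜 I : Type*) [RCLike 𝕜] [MeasurableSpace 𝕜] [BorelSpace 𝕜] [Fintype I] (s : ℕ) :
    Measure (Fin s → EuclideanSpace 𝕜 I) :=
  Measure.pi fun _ => stdGaussian (EuclideanSpace 𝕜 I)

instance γ_prob (s : ℕ) : IsProbabilityMeasure (γ 𝕜 I s) := by
  unfold γ
  infer_instance

theorem mp_Jpi (s : ℕ) : MeasurePreserving
    (fun p : (Fin s → EuclideanSpace 𝕜 I1) × (Fin s → EuclideanSpace 𝕜 I2) =>
      fun k => J (p.1 k, p.2 k)) ((γ 𝕜 I1 s).prod (γ 𝕜 I2 s)) (γ 𝕜 (I1 ⊕ I2) s) := by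
  have h1 := measurePreserving_pi (fun _ : Fin s =>
    (stdGaussian (EuclideanSpace 𝕜 I1)).prod (stdGaussian (EuclideanSpace 𝕜 I2)))
    (fun _ : Fin s => stdGaussian (EuclideanSpace 𝕜 (I1 ⊕ I2))) (fun _ => mp_J)
  have h2 := (measurePreserving_arrowProdEquivProdArrow (EuclideanSpace 𝕜 I1) (EuclideanSpace 𝕜 I2)
    (Fin s) (fun _ => stdGaussian (EuclideanSpace 𝕜 I1))
    (fun _ => stdGaussian (EuclideanSpace 𝕜 I2))).symm
  exact h1.comp h2

theorem ae_li (s : ℕ) (hs : s ≤ Fintype.card I) : ∀ᵐ b ∂(γ 𝕜 I s), LinearIndependent 𝕜 b := by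
  induction s with
  | zero => exact Eventually.of_forall fun b => linearIndependent_empty_type
  | succ s ih =>
    have ih' := ih (by omega)
    have hmp : MeasurePreserving (MeasurableEquiv.piFinSuccAbove (fun _ => EuclideanSpace 𝕜 I) 0)
        (γ 𝕜 I (s+1)) ((stdGaussian (EuclideanSpace 𝕜 I)).prod (γ 𝕜 I s)) :=
      measurePreserving_piFinSuccAbove (fun _ => stdGaussian (EuclideanSpace 𝕜 I)) 0
    have hcont : Continuous (fun p : EuclideanSpace 𝕜 I × (Fin s → EuclideanSpace 𝕜 I) =>
        (Fin.cons p.1 p.2 : Fin (s+1) → EuclideanSpace 𝕜 I)) := by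
      refine continuous_pi ?_
      intro i
      refine Fin.cases ?_ ?_ i
      · simpa using continuous_fst
      · intro j
        simp only [Fin.cons_succ]
        exact (continuous_apply j).comp continuous_snd
    have hopen : IsOpen {p : EuclideanSpace 𝕜 I × (Fin s → EuclideanSpace 𝕜 I) |
        LinearIndependent 𝕜 (Fin.cons p.1 p.2 : Fin (s+1) → EuclideanSpace 𝕜 I)} :=
      (isOpen_setOfPred_linearIndependent (𝕜 := 𝕜) (E := EuclideanSpace 𝕜 I)
        (ι := Fin (s+1))).preimage hcont
    have hprod : ∀ᵐ p ∂((stdGaussian (EuclideanSpace 𝕜 I)).prod (γ 𝕜 I s)),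
        LinearIndependent 𝕜 (Fin.cons p.1 p.2 : Fin (s+1) → EuclideanSpace 𝕜 I) := by
      rw [ae_iff]
      change ((stdGaussian (EuclideanSpace 𝕜 I)).prod (γ 𝕜 I s))
        {p : EuclideanSpace 𝕜 I × (Fin s → EuclideanSpace 𝕜 I) |
        LinearIndependent 𝕜 (Fin.cons p.1 p.2 : Fin (s+1) → EuclideanSpace 𝕜 I)}ᶜ = 0
      rw [Measure.prod_apply_symm hopen.measurableSet.compl]
      rw [lintegral_eq_zero_iff' (by
        exact (measurable_measure_prodMk_right hopen.measurableSet.compl).aemeasurable)]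
      filter_upwards [ih'] with w hw
      have hne : (Submodule.span 𝕜 (Set.range w)).restrictScalars ℝ ≠ ⊤ := by
        intro h
        have h' : Submodule.span 𝕜 (Set.range w) = ⊤ := by
          rwa [Submodule.restrictScalars_eq_top_iff] at h
        have h1 := finrank_span_eq_card hw
        rw [h', finrank_top, finrank_euclideanSpace, Fintype.card_fin] at h1
        omega
      have h2 := null_submodule _ hne
      rw [ae_iff] at h2
      refine le_antisymm ((measure_mono ?_).trans h2.le) bot_le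
      intro x hx
      have hx' : ¬ LinearIndependent 𝕜 (Fin.cons x w : Fin (s+1) → EuclideanSpace 𝕜 I) := hx
      rw [linearIndependent_finCons, not_and_or, not_not] at hx'
      rcases hx' with hx' | hx'
      · exact absurd hw hx'
      · exact fun hn => hn hx'
    have h3 := hmp.quasiMeasurePreserving.ae hprod
    filter_upwards [h3] with b hb
    have : (Fin.cons (MeasurableEquiv.piFinSuccAbove (fun _ => EuclideanSpace 𝕜 I) 0 b).1
      (MeasurableEquiv.piFinSuccAbove (fun _ => EuclideanSpace 𝕜 I) 0 b).2 :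
        Fin (s+1) → EuclideanSpace 𝕜 I) = b := by
      funext i
      refine Fin.cases ?_ ?_ i
      · simp [MeasurableEquiv.piFinSuccAbove]
      · intro j
        simp [MeasurableEquiv.piFinSuccAbove]
        rfl
    rwa [this] at hb

end rclike

end Pool.Agent.Helper41.RSVD
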