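import Mathlib
import Pool.Agent.Helper41.RSVD.Gauss2

/-! The expected inverse Gram matrix of Gaussian vectors (helper41, for MP_569b71_an). -/

namespace Pool.Agent.Helper41.RSVD

open MeasureTheory ProbabilityTheory Module Filter Topology Matrix
open scoped ENNReal NNReal RealInnerProductSpace

set_option linter.unusedSectionVars false

variable {𝕜 : Type*} [RCLike 𝕜] [MeasurableSpace 𝕜] [BorelSpace 𝕜]
variable {I I1 I2 : Type*} [Fintype I] [Fintype I1] [Fintype I2]

/-- The real orthogonal complement of a family of vectors over `𝕜`. -/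
noncomputable def comp {s : ℕ} (w : Fin s → EuclideanSpace 𝕜 I) : Submodule ℝ (EuclideanSpace 𝕜 I) :=
  ((Submodule.span 𝕜 (Set.range w))ᗮ).restrictScalars ℝ

theorem mem_comp {s : ℕ} {w : Fin s → EuclideanSpace 𝕜 I} {y : EuclideanSpace 𝕜 I} :
    y ∈ comp w ↔ ∀ j, inner 𝕜 (w j) y = 0 := by
  rw [comp, Submodule.restrictScalars_mem, Submodule.mem_orthogonal]
  constructor
  · intro h j
    exact h _ (Submodule.subset_span ⟨j, rfl⟩)
  · intro h u hu
    induction hu using Submodule.span_induction with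
    | mem x hx =>
      obtain ⟨j, rfl⟩ := hx
      exact h j
    | zero => simp
    | add x y _ _ hx hy => rw [inner_add_left, hx, hy, add_zero]
    | smul a x _ hx => rw [inner_smul_left, hx, mul_zero]

theorem finrank_comp {s : ℕ} {w : Fin s → EuclideanSpace 𝕜 I} (hw : LinearIndependent 𝕜 w) :
    finrank ℝ (comp w) = finrank ℝ 𝕜 * (Fintype.card I - s) := by
  have h1 := (Submodule.span 𝕜 (Set.range w)).finrank_add_finrank_orthogonal
  rw [finrank_span_eq_card hw, finrank_euclideanSpace, Fintype.card_fin] at h1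
  have h2 : finrank 𝕜 (Submodule.span 𝕜 (Set.range w))ᗮ = Fintype.card I - s := by omega
  rw [← h2, Module.finrank_mul_finrank]
  rfl

theorem gram_inv_bound {s : ℕ} (b : Fin (s+1) → EuclideanSpace 𝕜 I) (hb : LinearIndependent 𝕜 b)
    (k : Fin (s+1)) : 1 / ‖(comp (fun j => b (k.succAbove j))).orthogonalProjectionOnto (b k)‖ ^ 2 ≤
      RCLike.re ((Matrix.gram 𝕜 b)⁻¹ k k) := by
  set M := Matrix.gram 𝕜 b with hM
  have hdet : M.det ≠ 0 := Matrix.det_gram_ne_zero_iff_linearIndependent.mpr hb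
  have hMM : M * M⁻¹ = 1 := Matrix.mul_nonsing_inv _ (isUnit_iff_ne_zero.mpr hdet)
  set y : EuclideanSpace 𝕜 I := ∑ l, M⁻¹ l k • b l with hy
  have h1 : ∀ j, inner 𝕜 (b j) y = if j = k then 1 else 0 := by
    intro j
    rw [hy, inner_sum]
    simp_rw [inner_smul_right]
    have := congrFun (congrFun hMM j) k
    rw [Matrix.mul_apply, Matrix.one_apply] at this
    rw [← this]
    refine Finset.sum_congr rfl fun l _ => ?_
    rw [mul_comm]
    rfl
  have h2 : (‖y‖ ^ 2 : ℝ) = RCLike.re (M⁻¹ k k) := by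
    rw [← real_inner_self_eq_norm_sq, real_inner_eq]
    nth_rewrite 1 [hy]
    rw [sum_inner]
    simp_rw [inner_smul_left, h1]
    simp
  have hyW : y ∈ comp (fun j => b (k.succAbove j)) := by
    rw [mem_comp]
    intro j
    rw [h1, if_neg (Fin.succAbove_ne k j)]
  have h3 : (1:ℝ) = ⟪((comp (fun j => b (k.succAbove j))).orthogonalProjectionOnto (b k) :
      EuclideanSpace 𝕜 I), y⟫ := by
    have h4 := Submodule.inner_orthogonalProjectionOnto_eq_of_mem_right
      (K := comp (fun j => b (k.succAbove j))) ⟨y, hyW⟩ (b k)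
    rw [Submodule.coe_inner] at h4
    rw [h4]
    simp only
    rw [real_inner_eq, h1]
    simp
  have h5 : (1:ℝ) ≤ ‖(comp (fun j => b (k.succAbove j))).orthogonalProjectionOnto (b k)‖ * ‖y‖ := by
    rw [h3]
    exact real_inner_le_norm _ _
  rw [← h2]
  set a := ‖(comp (fun j => b (k.succAbove j))).orthogonalProjectionOnto (b k)‖ with ha
  have ha0 : 0 ≤ a := norm_nonneg _
  have hapos : 0 < a := by
    rcases ha0.eq_or_lt with h | h
    · rw [← h] at h5
      norm_num at h5
    · exact h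
  rw [div_le_iff₀ (by positivity)]
  nlinarith [norm_nonneg y]

theorem measurable_gram_inv {s : ℕ} (k l : Fin s) :
    Measurable (fun b : Fin s → EuclideanSpace 𝕜 I => (Matrix.gram 𝕜 b)⁻¹ k l) := by
  have hc : Continuous (fun b : Fin s → EuclideanSpace 𝕜 I => Matrix.gram 𝕜 b) := by
    refine continuous_matrix fun i j => ?_
    simp only [Matrix.gram_apply]
    exact (continuous_apply i).inner (continuous_apply j)
  have h1 : (fun b : Fin s → EuclideanSpace 𝕜 I => (Matrix.gram 𝕜 b)⁻¹ k l) =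
      fun b => (Matrix.gram 𝕜 b).det⁻¹ * (Matrix.gram 𝕜 b).adjugate k l := by
    funext b
    rw [Matrix.inv_def, Ring.inverse_eq_inv']
    rfl
  rw [h1]
  refine Measurable.mul ?_ ?_
  · exact hc.matrix_det.measurable.inv
  · exact (hc.matrix_adjugate.matrix_elem k l).measurable

theorem lintegral_gram_inv (s : ℕ) (k : Fin (s+1)) (κ : ℕ) (hκ : 0 < κ)
    (h : κ + 2 = finrank ℝ 𝕜 * (Fintype.card I - s)) :
    ENNReal.ofReal (1 / κ) ≤
      ∫⁻ b, ENNReal.ofReal (RCLike.re ((Matrix.gram 𝕜 b)⁻¹ k k)) ∂(γ 𝕜 I (s+1)) := by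
  have hcard : s + 1 ≤ Fintype.card I := by
    by_contra hcon
    have : Fintype.card I - s = 0 := by omega
    rw [this] at h
    omega
  have hmp : MeasurePreserving (MeasurableEquiv.piFinSuccAbove (fun _ => EuclideanSpace 𝕜 I) k)
      (γ 𝕜 I (s+1)) ((stdGaussian (EuclideanSpace 𝕜 I)).prod (γ 𝕜 I s)) :=
    measurePreserving_piFinSuccAbove (fun _ => stdGaussian (EuclideanSpace 𝕜 I)) k
  have hmeas : Measurable (fun b : Fin (s+1) → EuclideanSpace 𝕜 I =>
      ENNReal.ofReal (RCLike.re ((Matrix.gram 𝕜 b)⁻¹ k k))) :=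
    (RCLike.continuous_re.measurable.comp (measurable_gram_inv (𝕜 := 𝕜) (I := I) k k)).ennreal_ofReal
  have hli : ∀ᵐ p ∂((stdGaussian (EuclideanSpace 𝕜 I)).prod (γ 𝕜 I s)),
      LinearIndependent 𝕜 ((MeasurableEquiv.piFinSuccAbove (fun _ => EuclideanSpace 𝕜 I) k).symm p) :=
    hmp.symm.quasiMeasurePreserving.ae (ae_li (s+1) hcard)
  have hswap : ∀ᵐ w ∂(γ 𝕜 I s), ∀ᵐ x ∂(stdGaussian (EuclideanSpace 𝕜 I)),
      LinearIndependent 𝕜
        ((MeasurableEquiv.piFinSuccAbove (fun _ => EuclideanSpace 𝕜 I) k).symm (x, w)) := by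
    have h1 := (Measure.measurePreserving_swap (μ := γ 𝕜 I s)
      (ν := stdGaussian (EuclideanSpace 𝕜 I))).quasiMeasurePreserving.ae hli
    exact Measure.ae_ae_of_ae_prod h1
  rw [← hmp.symm.lintegral_comp hmeas, lintegral_prod_symm _ (by
    exact (hmeas.comp (MeasurableEquiv.measurable _)).aemeasurable)]
  calc ENNReal.ofReal (1 / κ) = ∫⁻ w, ENNReal.ofReal (1 / κ) ∂(γ 𝕜 I s) := by simp
    _ ≤ _ := by
      refine lintegral_mono_ae ?_
      filter_upwards [hswap, ae_li (𝕜 := 𝕜) (I := I) s (by omega)] with w hw hwli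
      rw [← lintegral_inv_proj_sq (comp w) κ hκ (by rw [finrank_comp hwli, h])]
      refine lintegral_mono_ae ?_
      filter_upwards [hw] with x hx
      apply ENNReal.ofReal_le_ofReal
      have := gram_inv_bound _ hx k
      have hk : (MeasurableEquiv.piFinSuccAbove (fun _ => EuclideanSpace 𝕜 I) k).symm (x, w) k =
          x := Fin.insertNth_apply_same (α := fun _ => EuclideanSpace 𝕜 I) k x w
      have hj : (fun j => (MeasurableEquiv.piFinSuccAbove (fun _ => EuclideanSpace 𝕜 I) k).symm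
          (x, w) (k.succAbove j)) = w := by
        funext j
        exact Fin.insertNth_apply_succAbove (α := fun _ => EuclideanSpace 𝕜 I) k x w j
      rw [hj, hk] at this
      exact this

end Pool.Agent.Helper41.RSVD
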