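import Mathlib
import Pool.Agent.Helper41.RSVD.Gram

/-! The expectation of the limiting functional (helper41, for MP_569b71_an). -/

namespace Pool.Agent.Helper41.RSVD

open MeasureTheory ProbabilityTheory Module Filter Topology Matrix
open scoped ENNReal NNReal RealInnerProductSpace

set_option linter.unusedSectionVars false

variable {𝕜 : Type*} [RCLike 𝕜] [MeasurableSpace 𝕜] [BorelSpace 𝕜]
variable {I I1 I2 : Type*} [Fintype I] [Fintype I1] [Fintype I2]

/-- The limiting functional. -/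
noncomputable def Fun {s : ℕ} (a : Fin s → EuclideanSpace 𝕜 I1) (b : Fin s → EuclideanSpace 𝕜 I2) : ℝ :=
  ∑ k, ∑ l, RCLike.re ((Matrix.gram 𝕜 b)⁻¹ k l * inner 𝕜 (a l) (a k))

theorem integrable_norm_sq_eval {s : ℕ} (k : Fin s) :
    Integrable (fun a : Fin s → EuclideanSpace 𝕜 I => ‖a k‖ ^ 2) (γ 𝕜 I s) := by
  have h := (measurePreserving_eval (fun _ : Fin s => stdGaussian (EuclideanSpace 𝕜 I)) k)
  exact h.integrable_comp_of_integrable (g := fun x : EuclideanSpace 𝕜 I => ‖x‖ ^ 2)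
    integrable_norm_sq

theorem integral_norm_sq_eval {s : ℕ} (k : Fin s) :
    ∫ a : Fin s → EuclideanSpace 𝕜 I, ‖a k‖ ^ 2 ∂(γ 𝕜 I s) =
      finrank ℝ 𝕜 * Fintype.card I := by
  have h := (measurePreserving_eval (fun _ : Fin s => stdGaussian (EuclideanSpace 𝕜 I)) k)
  have h1 : ∫ a : Fin s → EuclideanSpace 𝕜 I, ‖a k‖ ^ 2 ∂(γ 𝕜 I s) =
      ∫ x : EuclideanSpace 𝕜 I, ‖x‖ ^ 2 ∂(stdGaussian (EuclideanSpace 𝕜 I)) := by
    rw [← h.map_eq, integral_map h.measurable.aemeasurable
      (Measurable.aestronglyMeasurable (by fun_prop))]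
    rfl
  rw [h1, integral_norm_sq]
  have : finrank ℝ (EuclideanSpace 𝕜 I) = finrank ℝ 𝕜 * Fintype.card I := by
    rw [← Module.finrank_mul_finrank ℝ 𝕜 (EuclideanSpace 𝕜 I), finrank_euclideanSpace]
  rw [this]
  push_cast
  ring

theorem integrable_term {s : ℕ} (c : 𝕜) (k l : Fin s) :
    Integrable (fun a : Fin s → EuclideanSpace 𝕜 I => RCLike.re (c * inner 𝕜 (a l) (a k)))
      (γ 𝕜 I s) := by
  refine Integrable.mono' (((integrable_norm_sq_eval k).add (integrable_norm_sq_eval l)).const_mul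
    ‖c‖) ?_ ?_
  · refine Continuous.aestronglyMeasurable ?_
    exact RCLike.continuous_re.comp (continuous_const.mul
      ((continuous_apply l).inner (continuous_apply k)))
  · refine Eventually.of_forall fun a => ?_
    have h1 : ‖RCLike.re (c * inner 𝕜 (a l) (a k))‖ ≤ ‖c‖ * (‖a l‖ * ‖a k‖) := by
      refine (RCLike.norm_re_le_norm _).trans ?_
      rw [norm_mul]
      exact mul_le_mul_of_nonneg_left (norm_inner_le_norm _ _) (norm_nonneg _)
    refine h1.trans ?_
    simp only [Pi.add_apply]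
    apply mul_le_mul_of_nonneg_left _ (norm_nonneg _)
    nlinarith [sq_nonneg (‖a l‖ - ‖a k‖), norm_nonneg (a l), norm_nonneg (a k)]

theorem integral_term {s : ℕ} (c : 𝕜) (k l : Fin s) :
    ∫ a : Fin s → EuclideanSpace 𝕜 I, RCLike.re (c * inner 𝕜 (a l) (a k)) ∂(γ 𝕜 I s) =
      if k = l then RCLike.re c * (finrank ℝ 𝕜 * Fintype.card I) else 0 := by
  by_cases h : k = l
  · subst h
    simp only [if_true]
    rw [← integral_norm_sq_eval (𝕜 := 𝕜) (I := I) k, ← integral_const_mul]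
    refine integral_congr_ae (Eventually.of_forall fun a => ?_)
    simp only
    rw [inner_self_eq_norm_sq_to_K, ← RCLike.ofReal_pow, RCLike.re_mul_ofReal]
  · rw [if_neg h]
    refine integral_flip k _ ?_
    intro a
    simp only [if_true, if_neg (Ne.symm h)]
    rw [inner_neg_right]
    simp

theorem integral_sum_term {s : ℕ} (c : Fin s → Fin s → 𝕜) :
    ∫ a : Fin s → EuclideanSpace 𝕜 I1, ∑ k, ∑ l, RCLike.re (c k l * inner 𝕜 (a l) (a k))
      ∂(γ 𝕜 I1 s) = (finrank ℝ 𝕜 * Fintype.card I1) * ∑ k, RCLike.re (c k k) := by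
  rw [integral_finsetSum _ (fun k _ => integrable_finsetSum _ fun l _ => integrable_term _ k l)]
  have : ∀ k : Fin s, ∫ a : Fin s → EuclideanSpace 𝕜 I1, ∑ l,
      RCLike.re (c k l * inner 𝕜 (a l) (a k)) ∂(γ 𝕜 I1 s) =
      RCLike.re (c k k) * (finrank ℝ 𝕜 * Fintype.card I1) := by
    intro k
    rw [integral_finsetSum _ (fun l _ => integrable_term _ k l)]
    simp_rw [integral_term]
    simp
  simp_rw [this]
  rw [← Finset.sum_mul, mul_comm]

theorem integral_Fun {s : ℕ} (b : Fin s → EuclideanSpace 𝕜 I2) :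
    ∫ a : Fin s → EuclideanSpace 𝕜 I1, Fun a b ∂(γ 𝕜 I1 s) =
      (finrank ℝ 𝕜 * Fintype.card I1) * ∑ k, RCLike.re ((Matrix.gram 𝕜 b)⁻¹ k k) :=
  integral_sum_term fun k l => (Matrix.gram 𝕜 b)⁻¹ k l

theorem integrable_Fun {s : ℕ} (b : Fin s → EuclideanSpace 𝕜 I2) :
    Integrable (fun a : Fin s → EuclideanSpace 𝕜 I1 => Fun a b) (γ 𝕜 I1 s) :=
  integrable_finsetSum _ (fun k _ => integrable_finsetSum _ fun l _ => integrable_term _ k l)

theorem measurable_Fun {s : ℕ} : Measurable (fun p : (Fin s → EuclideanSpace 𝕜 I1) ×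
    (Fin s → EuclideanSpace 𝕜 I2) => Fun p.1 p.2) := by
  unfold Fun
  refine Finset.measurable_sum _ fun k _ => Finset.measurable_sum _ fun l _ => ?_
  refine RCLike.continuous_re.measurable.comp ?_
  refine Measurable.mul ((measurable_gram_inv k l).comp measurable_snd) ?_
  refine Continuous.measurable ?_
  exact ((continuous_apply l).comp continuous_fst).inner ((continuous_apply k).comp continuous_fst)

theorem ofReal_integral_le {α : Type*} [MeasurableSpace α] {μ : Measure α} {f : α → ℝ}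
    (hf : Integrable f μ) : ENNReal.ofReal (∫ x, f x ∂μ) ≤ ∫⁻ x, ENNReal.ofReal (f x) ∂μ := by
  rw [integral_eq_lintegral_pos_part_sub_lintegral_neg_part hf]
  refine (ENNReal.ofReal_le_ofReal (sub_le_self _ ENNReal.toReal_nonneg)).trans ?_
  exact ENNReal.ofReal_toReal_le

theorem lintegral_Fun (s : ℕ) (κ : ℕ) (hκ : 0 < κ)
    (h : κ + 2 = finrank ℝ 𝕜 * (Fintype.card I2 - s)) :
    ENNReal.ofReal ((s + 1) * (finrank ℝ 𝕜 * Fintype.card I1) / κ) ≤
      ∫⁻ p, ENNReal.ofReal (Fun p.1 p.2) ∂((γ 𝕜 I1 (s+1)).prod (γ 𝕜 I2 (s+1))) := by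
  have hcard : s + 1 ≤ Fintype.card I2 := by
    by_contra hcon
    have : Fintype.card I2 - s = 0 := by omega
    rw [this] at h
    omega
  rw [lintegral_prod_symm _ measurable_Fun.ennreal_ofReal.aemeasurable]
  have hN : (0:ℝ) ≤ finrank ℝ 𝕜 * Fintype.card I1 := by positivity
  calc ENNReal.ofReal ((s + 1) * (finrank ℝ 𝕜 * Fintype.card I1) / κ)
      = ENNReal.ofReal (finrank ℝ 𝕜 * Fintype.card I1) * ∑ k : Fin (s+1), ENNReal.ofReal (1 / κ) := by
        rw [Finset.sum_const, Finset.card_univ, Fintype.card_fin, nsmul_eq_mul,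
          ← ENNReal.ofReal_natCast, ← ENNReal.ofReal_mul (by positivity),
          ← ENNReal.ofReal_mul hN]
        congr 1
        push_cast
        ring
    _ ≤ ENNReal.ofReal (finrank ℝ 𝕜 * Fintype.card I1) * ∑ k : Fin (s+1),
          ∫⁻ b, ENNReal.ofReal (RCLike.re ((Matrix.gram 𝕜 b)⁻¹ k k)) ∂(γ 𝕜 I2 (s+1)) := by
        gcongr with k
        exact lintegral_gram_inv s k κ hκ h
    _ = ∫⁻ b, ENNReal.ofReal (finrank ℝ 𝕜 * Fintype.card I1) * ∑ k : Fin (s+1),
          ENNReal.ofReal (RCLike.re ((Matrix.gram 𝕜 b)⁻¹ k k)) ∂(γ 𝕜 I2 (s+1)) := by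
        rw [lintegral_const_mul' _ _ ENNReal.ofReal_ne_top, lintegral_finsetSum]
        intro k _
        exact (RCLike.continuous_re.measurable.comp (measurable_gram_inv k k)).ennreal_ofReal
    _ ≤ _ := by
        refine lintegral_mono_ae ?_
        filter_upwards [ae_li (𝕜 := 𝕜) (I := I2) (s+1) hcard] with b hb
        rw [← ENNReal.ofReal_sum_of_nonneg, ← ENNReal.ofReal_mul hN, ← integral_Fun]
        · exact ofReal_integral_le (integrable_Fun b)
        · intro k _
          exact le_trans (by positivity) (gram_inv_bound b hb k)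

end Pool.Agent.Helper41.RSVD
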