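import Mathlib
import Pool.Agent.Helper41.RSVD.Expect

/-! The functional `psi` (helper41, for MP_569b71_an). -/

namespace Pool.Agent.Helper41.RSVD

open MeasureTheory ProbabilityTheory Module Filter Topology Matrix
open scoped ENNReal NNReal RealInnerProductSpace

set_option linter.unusedSectionVars false

variable {𝕜 : Type*} [RCLike 𝕜] [MeasurableSpace 𝕜] [BorelSpace 𝕜]
variable {I I1 I2 : Type*} [Fintype I] [Fintype I1] [Fintype I2]

/-- The weighted square norm. -/
noncomputable def wt (t : I → ℝ) (z : EuclideanSpace 𝕜 I) : ℝ := ∑ i, ‖z i‖ ^ 2 / t i ^ 2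

/-- The functional `psi`. -/
noncomputable def psi (t : I → ℝ) (N : Submodule 𝕜 (EuclideanSpace 𝕜 I)) : ℝ≥0∞ :=
  ∑ j, ⨆ z ∈ N, ENNReal.ofReal (2 * RCLike.re (z j) - wt t z)

theorem wt_continuous (t : I → ℝ) : Continuous (wt t : EuclideanSpace 𝕜 I → ℝ) := by
  unfold wt
  fun_prop

theorem psi_span (t : I → ℝ) {s : ℕ} (G : Fin s → EuclideanSpace 𝕜 I) :
    psi t (Submodule.span 𝕜 (Set.range G)) = ∑ j, ⨆ x : Fin s → 𝕜,
      ENNReal.ofReal (2 * RCLike.re ((∑ k, x k • G k) j) - wt t (∑ k, x k • G k)) := by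
  unfold psi
  refine Finset.sum_congr rfl fun j _ => ?_
  apply le_antisymm
  · refine iSup₂_le fun z hz => ?_
    obtain ⟨x, rfl⟩ := (Submodule.mem_span_range_iff_exists_fun 𝕜).mp hz
    exact le_iSup (fun x : Fin s → 𝕜 =>
      ENNReal.ofReal (2 * RCLike.re ((∑ k, x k • G k) j) - wt t (∑ k, x k • G k))) x
  · refine iSup_le fun x => ?_
    refine le_iSup₂_of_le (∑ k, x k • G k)
      ((Submodule.mem_span_range_iff_exists_fun 𝕜).mpr ⟨x, rfl⟩) le_rfl

theorem psi_measurable (t : I → ℝ) (s : ℕ) : Measurable (fun G : Fin s → EuclideanSpace 𝕜 I =>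
    psi t (Submodule.span 𝕜 (Set.range G))) := by
  simp_rw [psi_span]
  refine Finset.measurable_sum _ fun j _ => ?_
  refine LowerSemicontinuous.measurable ?_
  refine lowerSemicontinuous_iSup fun x => ?_
  refine Continuous.lowerSemicontinuous ?_
  have h1 : Continuous (fun G : Fin s → EuclideanSpace 𝕜 I => ∑ k, x k • G k) := by fun_prop
  have h2 : Continuous (fun z : EuclideanSpace 𝕜 I =>
      ENNReal.ofReal (2 * RCLike.re (z j) - wt t z)) := by
    refine ENNReal.continuous_ofReal.comp ?_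
    exact (continuous_const.mul (RCLike.continuous_re.comp (by fun_prop))).sub (wt_continuous t)
  exact h2.comp h1

/-- Coordinatewise scaling. -/
noncomputable def sc (t : I → ℝ) (ht : ∀ i, t i ≠ 0) :
    EuclideanSpace 𝕜 I ≃ₗ[𝕜] EuclideanSpace 𝕜 I where
  toFun z := WithLp.toLp 2 fun i => (t i : 𝕜) * z i
  invFun z := WithLp.toLp 2 fun i => ((t i)⁻¹ : ℝ) * z i
  map_add' x y := by
    ext i
    simp [mul_add]
  map_smul' c x := by
    ext i
    simp
    ring
  left_inv z := by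
    ext i
    have := ht i
    simp [this]
  right_inv z := by
    ext i
    have := ht i
    simp [this]

theorem sc_apply (t : I → ℝ) (ht : ∀ i, t i ≠ 0) (z : EuclideanSpace 𝕜 I) (i : I) :
    sc t ht z i = (t i : 𝕜) * z i := rfl

theorem wt_sc (t : I → ℝ) (ht : ∀ i, t i ≠ 0) (y : EuclideanSpace 𝕜 I) :
    wt t (sc t ht y) = ‖y‖ ^ 2 := by
  rw [wt, EuclideanSpace.norm_sq_eq]
  refine Finset.sum_congr rfl fun i _ => ?_
  have := ht i
  rw [sc_apply, norm_mul, RCLike.norm_ofReal, mul_pow, sq_abs]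
  field_simp

variable [DecidableEq I]

theorem sum_proj (W : Submodule 𝕜 (EuclideanSpace 𝕜 I)) :
    ∑ j, ‖W.orthogonalProjectionOnto (EuclideanSpace.single j (1:𝕜))‖ ^ 2 = finrank 𝕜 W := by
  have h1 : ∀ j : I, ‖W.orthogonalProjectionOnto (EuclideanSpace.single j (1:𝕜))‖ ^ 2 =
      ∑ m, ‖(stdOrthonormalBasis 𝕜 W m : EuclideanSpace 𝕜 I) j‖ ^ 2 := by
    intro j
    rw [← (stdOrthonormalBasis 𝕜 W).sum_sq_norm_inner_right]
    refine Finset.sum_congr rfl fun m _ => ?_
    rw [Submodule.inner_orthogonalProjectionOnto_eq_of_mem_left, EuclideanSpace.inner_single_right]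
    simp
  simp_rw [h1]
  rw [Finset.sum_comm]
  have h2 : ∀ m, ∑ j, ‖(stdOrthonormalBasis 𝕜 W m : EuclideanSpace 𝕜 I) j‖ ^ 2 = 1 := by
    intro m
    rw [← EuclideanSpace.norm_sq_eq]
    have := (stdOrthonormalBasis 𝕜 W).orthonormal.1 m
    rw [Submodule.coe_norm] at this
    rw [this]
    norm_num
  simp_rw [h2]
  simp

/-- The lower bound for `psi`. -/
theorem psi_lower (t : I → ℝ) (ht : ∀ i, 1 ≤ t i) (N : Submodule 𝕜 (EuclideanSpace 𝕜 I))
    (z : I → EuclideanSpace 𝕜 I) (hz : ∀ j, z j ∈ N) :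
    ENNReal.ofReal (finrank 𝕜 N + ∑ j, (1 - 1 / t j ^ 2) * (2 * RCLike.re (z j j) - wt t (z j))) ≤
      psi t N := by
  have ht0 : ∀ i, t i ≠ 0 := fun i => (lt_of_lt_of_le one_pos (ht i)).ne'
  set W : Submodule 𝕜 (EuclideanSpace 𝕜 I) := N.comap (sc t ht0).toLinearMap with hW
  have hfin : finrank 𝕜 W = finrank 𝕜 N := by
    have := LinearEquiv.finrank_eq ((sc t ht0).submoduleMap W)
    rw [this, hW, Submodule.map_comap_eq_of_surjective (sc t ht0).surjective]
  set R : I → ℝ := fun j => t j ^ 2 *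
    ‖W.orthogonalProjectionOnto (EuclideanSpace.single j (1:𝕜))‖ ^ 2 with hR
  have hR0 : ∀ j, 0 ≤ R j := fun j => by positivity
  have hub : ∀ j, ∀ y ∈ N, 2 * RCLike.re (y j) - wt t y ≤ R j := by
    intro j y hy
    obtain ⟨v, rfl⟩ := (sc t ht0).surjective y
    have hv : v ∈ W := hy
    rw [wt_sc, sc_apply]
    have h1 : v j = inner 𝕜 (W.orthogonalProjectionOnto (EuclideanSpace.single j (1:𝕜)))
        (⟨v, hv⟩ : W) := by
      rw [Submodule.inner_orthogonalProjectionOnto_eq_of_mem_right,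
        EuclideanSpace.inner_single_left]
      simp
    have h2 : RCLike.re (v j) ≤
        ‖W.orthogonalProjectionOnto (EuclideanSpace.single j (1:𝕜))‖ * ‖v‖ := by
      rw [h1]
      exact (RCLike.re_le_norm _).trans (norm_inner_le_norm _ _)
    rw [RCLike.re_ofReal_mul]
    simp only [hR]
    set p := ‖W.orthogonalProjectionOnto (EuclideanSpace.single j (1:𝕜))‖
    have h3 : t j * RCLike.re (v j) ≤ t j * (p * ‖v‖) :=
      mul_le_mul_of_nonneg_left h2 (by linarith [ht j])
    nlinarith [sq_nonneg (t j * p - ‖v‖)]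
  have hatt : ∀ j, ENNReal.ofReal (R j) ≤ ⨆ y ∈ N, ENNReal.ofReal (2 * RCLike.re (y j) - wt t y) := by
    intro j
    set p : W := W.orthogonalProjectionOnto (EuclideanSpace.single j (1:𝕜)) with hp
    have h1 : (p : EuclideanSpace 𝕜 I) j = ((‖p‖ ^ 2 : ℝ) : 𝕜) := by
      have h2 : inner 𝕜 p p = inner 𝕜 (EuclideanSpace.single j (1:𝕜)) (p : EuclideanSpace 𝕜 I) := by
        nth_rewrite 1 [hp]
        rw [Submodule.inner_orthogonalProjectionOnto_eq_of_mem_right]
      rw [EuclideanSpace.inner_single_left] at h2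
      rw [inner_self_eq_norm_sq_to_K] at h2
      simp only [map_one, one_mul] at h2
      rw [← h2]
      push_cast
      rfl
    have hmem : sc t ht0 ((t j : 𝕜) • (p : EuclideanSpace 𝕜 I)) ∈ N := by
      have : (t j : 𝕜) • (p : EuclideanSpace 𝕜 I) ∈ W := W.smul_mem _ p.2
      exact this
    refine le_iSup₂_of_le _ hmem ?_
    apply ENNReal.ofReal_le_ofReal
    rw [wt_sc, sc_apply, norm_smul, RCLike.norm_ofReal, mul_pow, sq_abs, PiLp.smul_apply, h1,
      smul_eq_mul, ← RCLike.ofReal_mul, ← RCLike.ofReal_mul, RCLike.ofReal_re]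
    simp only [hR, Submodule.coe_norm]
    rw [← hp]
    nlinarith
  calc _ ≤ ENNReal.ofReal (∑ j, R j) := by
        apply ENNReal.ofReal_le_ofReal
        rw [← hfin, ← sum_proj W, ← Finset.sum_add_distrib]
        refine Finset.sum_le_sum fun j _ => ?_
        have h1 : (1:ℝ) ≤ t j ^ 2 := by nlinarith [ht j]
        have h2 : 0 ≤ 1 - 1 / t j ^ 2 := by
          rw [sub_nonneg, div_le_one (by positivity)]
          exact h1
        have h3 := mul_le_mul_of_nonneg_left (hub j _ (hz j)) h2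
        have h4 : (1 - 1 / t j ^ 2) * R j = R j -
            ‖W.orthogonalProjectionOnto (EuclideanSpace.single j (1:𝕜))‖ ^ 2 := by
          simp only [hR]
          have := ht0 j
          field_simp
        linarith
    _ = ∑ j, ENNReal.ofReal (R j) := ENNReal.ofReal_sum_of_nonneg fun j _ => hR0 j
    _ ≤ _ := Finset.sum_le_sum fun j _ => hatt j

end Pool.Agent.Helper41.RSVD
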