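import Mathlib
import Pool.Agent.Helper41.RSVD.Psi

/-! Haar measure on the unitary group (helper41, for MP_569b71_an). -/

namespace Pool.Agent.Helper41.RSVD

open MeasureTheory ProbabilityTheory Module Filter Topology Matrix
open scoped ENNReal NNReal RealInnerProductSpace

set_option linter.unusedSectionVars false

variable {𝕜 : Type*} [RCLike 𝕜] [MeasurableSpace 𝕜] [BorelSpace 𝕜]
variable {I : Type*} [Fintype I] [DecidableEq I]

instance matMeas {m n : Type*} : MeasurableSpace (Matrix m n 𝕜) :=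
  inferInstanceAs (MeasurableSpace (m → n → 𝕜))

instance matBorel {m n : Type*} [Fintype m] [Fintype n] : BorelSpace (Matrix m n 𝕜) :=
  inferInstanceAs (BorelSpace (m → n → 𝕜))

/-- The unitary group. -/
abbrev UU (𝕜 I : Type*) [RCLike 𝕜] [Fintype I] [DecidableEq I] := Matrix.unitaryGroup I 𝕜

instance : IsTopologicalGroup (UU 𝕜 I) := inferInstanceAs (IsTopologicalGroup (unitary (Matrix I I 𝕜)))

instance : CompactSpace (UU 𝕜 I) := by
  refine (isCompact_iff_compactSpace (s := (Matrix.unitaryGroup I 𝕜 : Set (Matrix I I 𝕜)))).mp ?_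
  have h1 : IsCompact (Set.pi Set.univ fun _ : I => Set.pi Set.univ fun _ : I =>
      Metric.closedBall (0:𝕜) 1) :=
    isCompact_univ_pi fun _ => isCompact_univ_pi fun _ => isCompact_closedBall _ _
  refine h1.of_isClosed_subset ?_ ?_
  · have : (Matrix.unitaryGroup I 𝕜 : Set (Matrix I I 𝕜)) =
        {A | star A * A = 1} ∩ {A | A * star A = 1} := by
      ext A
      exact Unitary.mem_iff
    rw [this]
    refine IsClosed.inter ?_ ?_
    · exact isClosed_eq (by fun_prop) continuous_const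
    · exact isClosed_eq (by fun_prop) continuous_const
  · intro A hA
    simp only [Set.mem_pi, Set.mem_univ, true_implies, mem_closedBall_zero_iff]
    intro i j
    exact entry_norm_bound_of_unitary hA i j

instance matSecond {m n : Type*} [Fintype m] [Fintype n] :
    SecondCountableTopology (Matrix m n 𝕜) :=
  inferInstanceAs (SecondCountableTopology (m → n → 𝕜))

example : BorelSpace (UU 𝕜 I) := inferInstance

instance : SecondCountableTopology (UU 𝕜 I) :=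
  TopologicalSpace.Subtype.secondCountableTopology _

/-- The Haar probability measure. -/
noncomputable def haarU (𝕜 I : Type*) [RCLike 𝕜] [MeasurableSpace 𝕜] [BorelSpace 𝕜] [Fintype I]
    [DecidableEq I] : Measure (UU 𝕜 I) := Measure.haarMeasure ⊤

instance : IsProbabilityMeasure (haarU 𝕜 I) := ⟨by
  have := Measure.haarMeasure_self (K₀ := (⊤ : TopologicalSpace.PositiveCompacts (UU 𝕜 I)))
  unfold haarU
  simpa using this⟩

instance : (haarU 𝕜 I).IsMulLeftInvariant := by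
  unfold haarU
  infer_instance

/-- Unitary matrices are the same as linear isometries. -/
noncomputable def Phi (𝕜 I : Type*) [RCLike 𝕜] [Fintype I] [DecidableEq I] :
    UU 𝕜 I ≃* (EuclideanSpace 𝕜 I ≃ₗᵢ[𝕜] EuclideanSpace 𝕜 I) :=
  (Unitary.mapEquiv (⟨(Matrix.toEuclideanCLM (n := I) (𝕜 := 𝕜)).toRingEquiv.toMulEquiv,
    fun a => map_star (Matrix.toEuclideanCLM (n := I) (𝕜 := 𝕜)) a⟩ :
    Matrix I I 𝕜 ≃⋆* (EuclideanSpace 𝕜 I →L[𝕜] EuclideanSpace 𝕜 I))).toMulEquiv.trans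
    Unitary.linearIsometryEquiv

theorem Phi_apply (v : UU 𝕜 I) (z : EuclideanSpace 𝕜 I) :
    Phi 𝕜 I v z = WithLp.toLp 2 ((v : Matrix I I 𝕜) *ᵥ (WithLp.ofLp z)) := rfl

theorem exists_Phi (N N' : Submodule 𝕜 (EuclideanSpace 𝕜 I)) (h : finrank 𝕜 N = finrank 𝕜 N') :
    ∃ w : UU 𝕜 I, N' = N.map (Phi 𝕜 I w).toLinearEquiv.toLinearMap := by
  have e : N ≃ₗᵢ[𝕜] N' :=
    (stdOrthonormalBasis 𝕜 N).equiv (stdOrthonormalBasis 𝕜 N') (finCongr h)
  set L : N →ₗᵢ[𝕜] EuclideanSpace 𝕜 I := N'.subtypeₗᵢ.comp e.toLinearIsometry with hL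
  set L' : EuclideanSpace 𝕜 I →ₗᵢ[𝕜] EuclideanSpace 𝕜 I := L.extend with hL'
  set W : EuclideanSpace 𝕜 I ≃ₗᵢ[𝕜] EuclideanSpace 𝕜 I := L'.toLinearIsometryEquiv rfl with hW
  refine ⟨(Phi 𝕜 I).symm W, ?_⟩
  rw [MulEquiv.apply_symm_apply]
  ext x
  rw [Submodule.mem_map]
  constructor
  · intro hx
    refine ⟨e.symm ⟨x, hx⟩, (e.symm ⟨x, hx⟩).2, ?_⟩
    change L.extend _ = _
    rw [LinearIsometry.extend_apply]
    simp [hL]
  · rintro ⟨y, hy, rfl⟩
    change L.extend ((⟨y, hy⟩ : N) : EuclideanSpace 𝕜 I) ∈ N'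
    rw [LinearIsometry.extend_apply]
    simp [hL]

/-- The action of the inverse. -/
noncomputable def act (v : UU 𝕜 I) (N : Submodule 𝕜 (EuclideanSpace 𝕜 I)) :
    Submodule 𝕜 (EuclideanSpace 𝕜 I) := N.map (Phi 𝕜 I v⁻¹).toLinearEquiv.toLinearMap

theorem psi_const (t : I → ℝ) (N N' : Submodule 𝕜 (EuclideanSpace 𝕜 I))
    (h : finrank 𝕜 N = finrank 𝕜 N') :
    ∫⁻ v, psi t (act v N') ∂(haarU 𝕜 I) = ∫⁻ v, psi t (act v N) ∂(haarU 𝕜 I) := by
  obtain ⟨w, rfl⟩ := exists_Phi N N' h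
  rw [← lintegral_mul_left_eq_self (fun v => psi t (act v N)) w⁻¹]
  refine lintegral_congr fun v => ?_
  congr 1
  rw [act, act, ← Submodule.map_comp, _root_.mul_inv_rev, inv_inv, map_mul]
  rfl

theorem act_span (v : UU 𝕜 I) {s : ℕ} (G : Fin s → EuclideanSpace 𝕜 I) :
    act v (Submodule.span 𝕜 (Set.range G)) =
      Submodule.span 𝕜 (Set.range fun k => Phi 𝕜 I v⁻¹ (G k)) := by
  rw [act, Submodule.map_span, ← Set.range_comp]
  rfl

theorem mp_Phi (w : UU 𝕜 I) (s : ℕ) :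
    MeasurePreserving (fun G : Fin s → EuclideanSpace 𝕜 I => fun k => Phi 𝕜 I w (G k))
      (γ 𝕜 I s) (γ 𝕜 I s) := by
  have h1 : MeasurePreserving (fun z : EuclideanSpace 𝕜 I => Phi 𝕜 I w z)
      (stdGaussian (EuclideanSpace 𝕜 I)) (stdGaussian (EuclideanSpace 𝕜 I)) := by
    refine ⟨(Phi 𝕜 I w).continuous.measurable, ?_⟩
    set f : EuclideanSpace 𝕜 I ≃ₗᵢ[ℝ] EuclideanSpace 𝕜 I :=
      ⟨(Phi 𝕜 I w).toLinearEquiv.restrictScalars ℝ, (Phi 𝕜 I w).norm_map⟩ with hf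
    exact stdGaussian_map f
  exact measurePreserving_pi _ _ fun _ => h1

theorem measurable_act (t : I → ℝ) (s : ℕ) :
    Measurable (fun p : UU 𝕜 I × (Fin s → EuclideanSpace 𝕜 I) =>
      psi t (Submodule.span 𝕜 (Set.range fun k => Phi 𝕜 I p.1⁻¹ (p.2 k)))) := by
  refine (psi_measurable t s).comp ?_
  refine Continuous.measurable ?_
  refine continuous_pi fun k => ?_
  simp_rw [Phi_apply]
  refine (PiLp.continuous_toLp 2 _).comp ?_
  refine Continuous.matrix_mulVec ?_ ?_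
  · exact continuous_subtype_val.comp (continuous_inv.comp continuous_fst)
  · exact (PiLp.continuous_ofLp 2 _).comp ((continuous_apply k).comp continuous_snd)

theorem psi_average (t : I → ℝ) (s : ℕ) (N : Submodule 𝕜 (EuclideanSpace 𝕜 I))
    (hN : finrank 𝕜 N = s) :
    ∫⁻ v, psi t (act v N) ∂(haarU 𝕜 I) =
      ∫⁻ G, psi t (Submodule.span 𝕜 (Set.range G)) ∂(γ 𝕜 I s) := by
  have hs : s ≤ Fintype.card I := by
    rw [← hN, ← finrank_euclideanSpace (𝕜 := 𝕜) (ι := I)]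
    exact Submodule.finrank_le N
  calc ∫⁻ v, psi t (act v N) ∂(haarU 𝕜 I)
      = ∫⁻ _ : Fin s → EuclideanSpace 𝕜 I, (∫⁻ v, psi t (act v N) ∂(haarU 𝕜 I)) ∂(γ 𝕜 I s) := by
        simp
    _ = ∫⁻ G : Fin s → EuclideanSpace 𝕜 I, (∫⁻ v, psi t (Submodule.span 𝕜
          (Set.range fun k => Phi 𝕜 I v⁻¹ (G k))) ∂(haarU 𝕜 I)) ∂(γ 𝕜 I s) := by
        refine lintegral_congr_ae ?_
        filter_upwards [ae_li (𝕜 := 𝕜) (I := I) s hs] with G hG
        simp_rw [← act_span]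
        refine psi_const t _ N ?_
        rw [finrank_span_eq_card hG, Fintype.card_fin, hN]
    _ = ∫⁻ v, (∫⁻ G : Fin s → EuclideanSpace 𝕜 I, psi t (Submodule.span 𝕜
          (Set.range fun k => Phi 𝕜 I v⁻¹ (G k))) ∂(γ 𝕜 I s)) ∂(haarU 𝕜 I) := by
        rw [lintegral_lintegral_swap]
        exact ((measurable_act t s).comp measurable_swap).aemeasurable
    _ = ∫⁻ v : UU 𝕜 I, (∫⁻ G : Fin s → EuclideanSpace 𝕜 I, psi t (Submodule.span 𝕜
          (Set.range G)) ∂(γ 𝕜 I s)) ∂(haarU 𝕜 I) := by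
        refine lintegral_congr fun v => ?_
        exact (mp_Phi v⁻¹ s).lintegral_comp (psi_measurable t s)
    _ = _ := by simp

end Pool.Agent.Helper41.RSVD
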