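import Mathlib
import Pool.Agent.Helper41.RSVD.Psi

/-! The limit `T → ∞` (helper41, for MP_569b71_an). -/

namespace Pool.Agent.Helper41.RSVD

open MeasureTheory ProbabilityTheory Module Filter Topology Matrix
open scoped ENNReal NNReal RealInnerProductSpace

set_option linter.unusedSectionVars false

variable {𝕜 : Type*} [RCLike 𝕜] [MeasurableSpace 𝕜] [BorelSpace 𝕜]
variable {I I1 I2 : Type*} [Fintype I] [Fintype I1] [Fintype I2]

/-- The weights. -/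
def tT (I1 I2 : Type*) (T : ℝ) : I1 ⊕ I2 → ℝ := Sum.elim (fun _ => T) (fun _ => 1)

/-- The span of the combined tuple. -/
noncomputable def Nab {s : ℕ} (a : Fin s → EuclideanSpace 𝕜 I1) (b : Fin s → EuclideanSpace 𝕜 I2) :
    Submodule 𝕜 (EuclideanSpace 𝕜 (I1 ⊕ I2)) :=
  Submodule.span 𝕜 (Set.range fun k => J (a k, b k))

/-- The second projection. -/
noncomputable def pr2 : EuclideanSpace 𝕜 (I1 ⊕ I2) →ₗ[𝕜] EuclideanSpace 𝕜 I2 where
  toFun z := WithLp.toLp 2 fun i => z (Sum.inr i)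
  map_add' x y := by ext i; simp
  map_smul' c x := by ext i; simp

theorem finrank_Nab {s : ℕ} (a : Fin s → EuclideanSpace 𝕜 I1) (b : Fin s → EuclideanSpace 𝕜 I2)
    (hb : LinearIndependent 𝕜 b) : finrank 𝕜 (Nab a b) = s := by
  have h1 : LinearIndependent 𝕜 fun k => J (a k, b k) := by
    have h2 : (pr2 : EuclideanSpace 𝕜 (I1 ⊕ I2) →ₗ[𝕜] EuclideanSpace 𝕜 I2) ∘
        (fun k => J (a k, b k)) = b := by
      funext k
      rfl
    exact LinearIndependent.of_comp pr2 (by rw [h2]; exact hb)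
  rw [Nab, finrank_span_eq_card h1, Fintype.card_fin]

/-- The coefficients. -/
noncomputable def xc {s : ℕ} (a : Fin s → EuclideanSpace 𝕜 I1) (b : Fin s → EuclideanSpace 𝕜 I2)
    (j : I1) (k : Fin s) : 𝕜 := ∑ l, (Matrix.gram 𝕜 b)⁻¹ k l * star ((a l) j)

theorem inner_xc {s : ℕ} (a : Fin s → EuclideanSpace 𝕜 I1) (b : Fin s → EuclideanSpace 𝕜 I2)
    (hb : LinearIndependent 𝕜 b) (j : I1) (k : Fin s) :
    inner 𝕜 (b k) (∑ l, xc a b j l • b l) = star ((a k) j) := by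
  set M := Matrix.gram 𝕜 b with hM
  have hdet : M.det ≠ 0 := Matrix.det_gram_ne_zero_iff_linearIndependent.mpr hb
  have hMM : M * M⁻¹ = 1 := Matrix.mul_nonsing_inv _ (isUnit_iff_ne_zero.mpr hdet)
  have h1 : (M *ᵥ (M⁻¹ *ᵥ fun l => star ((a l) j))) k = star ((a k) j) := by
    rw [Matrix.mulVec_mulVec, hMM, Matrix.one_mulVec]
  rw [← h1, inner_sum]
  simp_rw [inner_smul_right]
  rw [Matrix.mulVec, dotProduct]
  refine Finset.sum_congr rfl fun l _ => ?_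
  rw [mul_comm]
  rfl

theorem re_xc {s : ℕ} (a : Fin s → EuclideanSpace 𝕜 I1) (b : Fin s → EuclideanSpace 𝕜 I2)
    (hb : LinearIndependent 𝕜 b) (j : I1) :
    RCLike.re ((∑ k, xc a b j k • a k) j) = ‖∑ k, xc a b j k • b k‖ ^ 2 := by
  have h1 : inner 𝕜 (∑ k, xc a b j k • b k) (∑ k, xc a b j k • b k) =
      star ((∑ k, xc a b j k • a k) j) := by
    nth_rewrite 1 [sum_inner]
    simp_rw [inner_smul_left, inner_xc a b hb]
    rw [WithLp.ofLp_sum, Finset.sum_apply, star_sum]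
    refine Finset.sum_congr rfl fun k _ => ?_
    simp
  have h2 := congrArg RCLike.re h1
  rw [inner_self_eq_norm_sq] at h2
  rw [h2]
  simp

theorem sum_xc {s : ℕ} (a : Fin s → EuclideanSpace 𝕜 I1) (b : Fin s → EuclideanSpace 𝕜 I2) :
    ∑ j, RCLike.re ((∑ k, xc a b j k • a k) j) = Fun a b := by
  unfold Fun
  have h1 : ∀ j : I1, RCLike.re ((∑ k, xc a b j k • a k) j) =
      ∑ k, ∑ l, RCLike.re ((Matrix.gram 𝕜 b)⁻¹ k l * (star ((a l) j) * (a k) j)) := by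
    intro j
    rw [WithLp.ofLp_sum, Finset.sum_apply, map_sum]
    refine Finset.sum_congr rfl fun k _ => ?_
    simp only [PiLp.smul_apply, smul_eq_mul, xc]
    rw [Finset.sum_mul, map_sum]
    refine Finset.sum_congr rfl fun l _ => ?_
    rw [mul_assoc]
  simp_rw [h1]
  rw [Finset.sum_comm]
  refine Finset.sum_congr rfl fun k _ => ?_
  rw [Finset.sum_comm]
  refine Finset.sum_congr rfl fun l _ => ?_
  rw [← map_sum, ← Finset.mul_sum, PiLp.inner_apply]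
  congr 2
  refine Finset.sum_congr rfl fun j _ => ?_
  rw [RCLike.inner_apply, mul_comm]
  rfl

variable [DecidableEq I1] [DecidableEq I2]

theorem psi_lower_Nab {s : ℕ} (a : Fin s → EuclideanSpace 𝕜 I1) (b : Fin s → EuclideanSpace 𝕜 I2)
    (hb : LinearIndependent 𝕜 b) (T : ℝ) (hT : 1 ≤ T) :
    ENNReal.ofReal (s + (1 - 1 / T ^ 2) *
      (Fun a b - (∑ j, ‖∑ k, xc a b j k • a k‖ ^ 2) / T ^ 2)) ≤ psi (tT I1 I2 T) (Nab a b) := by
  have ht : ∀ i, 1 ≤ tT I1 I2 T i := by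
    rintro (i | i)
    · exact hT
    · exact le_refl _
  set z : I1 ⊕ I2 → EuclideanSpace 𝕜 (I1 ⊕ I2) :=
    Sum.elim (fun j => ∑ k, xc a b j k • J (a k, b k)) (fun _ => 0) with hz
  have hzN : ∀ j, z j ∈ Nab a b := by
    rintro (j | j)
    · exact (Submodule.mem_span_range_iff_exists_fun 𝕜).mpr ⟨xc a b j, rfl⟩
    · exact Submodule.zero_mem _
  have h1 := psi_lower (tT I1 I2 T) ht (Nab a b) z hzN
  rw [finrank_Nab a b hb] at h1
  convert h1 using 2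
  congr 1
  rw [Fintype.sum_sum_type]
  have h2 : ∑ j : I2, (1 - 1 / tT I1 I2 T (Sum.inr j) ^ 2) *
      (2 * RCLike.re (z (Sum.inr j) (Sum.inr j)) - wt (tT I1 I2 T) (z (Sum.inr j))) = 0 := by
    refine Finset.sum_eq_zero fun j _ => ?_
    simp [tT]
  rw [h2, add_zero]
  have h3 : ∀ j : I1, (1 - 1 / tT I1 I2 T (Sum.inl j) ^ 2) *
      (2 * RCLike.re (z (Sum.inl j) (Sum.inl j)) - wt (tT I1 I2 T) (z (Sum.inl j))) =
      (1 - 1 / T ^ 2) * (RCLike.re ((∑ k, xc a b j k • a k) j) -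
        ‖∑ k, xc a b j k • a k‖ ^ 2 / T ^ 2) := by
    intro j
    have h4 : ∀ i, z (Sum.inl j) (Sum.inl i) = (∑ k, xc a b j k • a k) i := by
      intro i
      simp only [hz, Sum.elim_inl]
      rw [WithLp.ofLp_sum, WithLp.ofLp_sum, Finset.sum_apply, Finset.sum_apply]
      rfl
    have h5 : ∀ i, z (Sum.inl j) (Sum.inr i) = (∑ k, xc a b j k • b k) i := by
      intro i
      simp only [hz, Sum.elim_inl]
      rw [WithLp.ofLp_sum, WithLp.ofLp_sum, Finset.sum_apply, Finset.sum_apply]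
      rfl
    have h6 : wt (tT I1 I2 T) (z (Sum.inl j)) =
        ‖∑ k, xc a b j k • a k‖ ^ 2 / T ^ 2 + ‖∑ k, xc a b j k • b k‖ ^ 2 := by
      rw [wt, Fintype.sum_sum_type]
      simp_rw [h4, h5]
      simp only [tT, Sum.elim_inl, Sum.elim_inr]
      rw [← Finset.sum_div, EuclideanSpace.norm_sq_eq, EuclideanSpace.norm_sq_eq]
      simp
    rw [h4, h6, ← re_xc a b hb]
    simp only [tT, Sum.elim_inl]
    ring
  simp_rw [h3]
  rw [← Finset.mul_sum, Finset.sum_sub_distrib, sum_xc, Finset.sum_div]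

theorem Fun_nonneg {s : ℕ} (a : Fin s → EuclideanSpace 𝕜 I1) (b : Fin s → EuclideanSpace 𝕜 I2)
    (hb : LinearIndependent 𝕜 b) : 0 ≤ Fun a b := by
  rw [← sum_xc]
  refine Finset.sum_nonneg fun j _ => ?_
  rw [re_xc a b hb]
  positivity

theorem liminf_psi {s : ℕ} (a : Fin s → EuclideanSpace 𝕜 I1) (b : Fin s → EuclideanSpace 𝕜 I2)
    (hb : LinearIndependent 𝕜 b) :
    ENNReal.ofReal (s + Fun a b) ≤
      liminf (fun n : ℕ => psi (tT I1 I2 ((n : ℝ) + 1)) (Nab a b)) atTop := by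
  set A := ∑ j, ‖∑ k, xc a b j k • a k‖ ^ 2 with hA
  have h1 : Tendsto (fun n : ℕ => ENNReal.ofReal (s + (1 - 1 / ((n:ℝ) + 1) ^ 2) *
      (Fun a b - A / ((n:ℝ) + 1) ^ 2))) atTop (𝓝 (ENNReal.ofReal (s + Fun a b))) := by
    refine (ENNReal.continuous_ofReal.tendsto _).comp ?_
    have h2 : Tendsto (fun n : ℕ => 1 / ((n:ℝ) + 1) ^ 2) atTop (𝓝 0) := by
      have := (tendsto_one_div_add_atTop_nhds_zero_nat (𝕜 := ℝ)).pow 2
      simpa using this
    have h3 : Tendsto (fun n : ℕ => A / ((n:ℝ) + 1) ^ 2) atTop (𝓝 0) := by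
      have := h2.const_mul A
      simpa [div_eq_mul_inv] using this
    have h4 := ((h2.const_sub 1).mul (h3.const_sub (Fun a b))).const_add (s : ℝ)
    simpa using h4
  rw [← h1.liminf_eq]
  refine liminf_le_liminf (Eventually.of_forall fun n => ?_)
  exact psi_lower_Nab a b hb _ (by linarith [(Nat.cast_nonneg n : (0:ℝ) ≤ n)])

theorem main_limit (s : ℕ) (κ : ℕ) (hκ : 0 < κ)
    (h : κ + 2 = finrank ℝ 𝕜 * (Fintype.card I2 - s)) (K : ℝ≥0∞)
    (hK : ∀ n : ℕ, ∫⁻ G, psi (tT I1 I2 ((n : ℝ) + 1)) (Submodule.span 𝕜 (Set.range G))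
      ∂(γ 𝕜 (I1 ⊕ I2) (s+1)) ≤ K) :
    ENNReal.ofReal ((s + 1) * (1 + (finrank ℝ 𝕜 * Fintype.card I1) / κ)) ≤ K := by
  have hcard : s + 1 ≤ Fintype.card I2 := by
    by_contra hcon
    have : Fintype.card I2 - s = 0 := by omega
    rw [this] at h
    omega
  have h1 : ∀ n : ℕ, ∫⁻ p, psi (tT I1 I2 ((n : ℝ) + 1)) (Nab p.1 p.2)
      ∂((γ 𝕜 I1 (s+1)).prod (γ 𝕜 I2 (s+1))) ≤ K := by
    intro n
    have h2 := hK n
    rw [← (mp_Jpi (s+1)).lintegral_comp (psi_measurable _ _)] at h2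
    exact h2
  have hli : ∀ᵐ p ∂((γ 𝕜 I1 (s+1)).prod (γ 𝕜 I2 (s+1))), LinearIndependent 𝕜 p.2 :=
    Measure.quasiMeasurePreserving_snd.ae (ae_li (s+1) hcard)
  have h2 : ∫⁻ p, ENNReal.ofReal ((s + 1 : ℕ) + Fun p.1 p.2)
      ∂((γ 𝕜 I1 (s+1)).prod (γ 𝕜 I2 (s+1))) ≤ K := by
    calc _ ≤ ∫⁻ p, liminf (fun n : ℕ => psi (tT I1 I2 ((n : ℝ) + 1)) (Nab p.1 p.2)) atTop
          ∂((γ 𝕜 I1 (s+1)).prod (γ 𝕜 I2 (s+1))) := by
          refine lintegral_mono_ae ?_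
          filter_upwards [hli] with p hp
          exact liminf_psi p.1 p.2 hp
      _ ≤ liminf (fun n : ℕ => ∫⁻ p, psi (tT I1 I2 ((n : ℝ) + 1)) (Nab p.1 p.2)
          ∂((γ 𝕜 I1 (s+1)).prod (γ 𝕜 I2 (s+1)))) atTop := by
          refine lintegral_liminf_le fun n => ?_
          exact (psi_measurable _ _).comp (mp_Jpi (s+1)).measurable
      _ ≤ liminf (fun _ : ℕ => K) atTop := liminf_le_liminf (Eventually.of_forall h1)
      _ = K := liminf_const _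
  refine le_trans ?_ h2
  have h3 : ∫⁻ p, ENNReal.ofReal ((s + 1 : ℕ) + Fun p.1 p.2)
      ∂((γ 𝕜 I1 (s+1)).prod (γ 𝕜 I2 (s+1))) = ENNReal.ofReal ((s + 1 : ℕ) : ℝ) +
      ∫⁻ p, ENNReal.ofReal (Fun p.1 p.2) ∂((γ 𝕜 I1 (s+1)).prod (γ 𝕜 I2 (s+1))) := by
    have h4 : ∫⁻ p, ENNReal.ofReal ((s + 1 : ℕ) + Fun p.1 p.2)
      ∂((γ 𝕜 I1 (s+1)).prod (γ 𝕜 I2 (s+1))) = ∫⁻ p, (ENNReal.ofReal ((s + 1 : ℕ) : ℝ) +
        ENNReal.ofReal (Fun p.1 p.2)) ∂((γ 𝕜 I1 (s+1)).prod (γ 𝕜 I2 (s+1))) := by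
      refine lintegral_congr_ae ?_
      filter_upwards [hli] with p hp
      rw [ENNReal.ofReal_add (by positivity) (Fun_nonneg p.1 p.2 hp)]
    rw [h4, lintegral_add_left measurable_const]
    simp
  rw [h3]
  have h5 : ENNReal.ofReal ((s + 1) * (1 + (finrank ℝ 𝕜 * Fintype.card I1) / κ)) =
      ENNReal.ofReal ((s + 1 : ℕ) : ℝ) +
        ENNReal.ofReal ((s + 1) * (finrank ℝ 𝕜 * Fintype.card I1) / κ) := by
    rw [← ENNReal.ofReal_add (by positivity) (by positivity)]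
    congr 1
    push_cast
    ring
  rw [h5]
  exact add_le_add le_rfl (lintegral_Fun s κ hκ h)

end Pool.Agent.Helper41.RSVD
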