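import Mathlib
import Pool.Agent.Helper41.RSVD.Haar
import Pool.Agent.Helper41.RSVD.Limit

/-! The Bayesian lower bound (helper41, for MP_569b71_an). -/

namespace Pool.Agent.Helper41.RSVD

open MeasureTheory ProbabilityTheory Module Filter Topology Matrix
open scoped ENNReal NNReal RealInnerProductSpace

set_option linter.unusedSectionVars false

/-- The squared Frobenius norm. -/
def frob2 {𝕜 m n : Type*} [RCLike 𝕜] [Fintype m] [Fintype n] (A : Matrix m n 𝕜) : ℝ :=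
  ∑ i, ∑ j, ‖A i j‖ ^ 2

variable {𝕜 : Type*} [RCLike 𝕜]
variable {m n : Type*} [Fintype m] [Fintype n]
variable {I : Type*} [Fintype I] [DecidableEq I] {L : Type*} [Fintype L] [DecidableEq L]

theorem frob2_nonneg (A : Matrix m n 𝕜) : 0 ≤ frob2 A :=
  Finset.sum_nonneg fun _ _ => Finset.sum_nonneg fun _ _ => by positivity

theorem frob2_trace (A : Matrix m n 𝕜) : frob2 A = RCLike.re (Aᴴ * A).trace := by
  rw [frob2, Finset.sum_comm, Matrix.trace, map_sum]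
  refine Finset.sum_congr rfl fun j _ => ?_
  rw [Matrix.diag_apply, Matrix.mul_apply, map_sum]
  refine Finset.sum_congr rfl fun i _ => ?_
  rw [Matrix.conjTranspose_apply, RCLike.star_def, RCLike.conj_mul, ← RCLike.ofReal_pow,
    RCLike.ofReal_re]

theorem frob2_conjTranspose (A : Matrix m n 𝕜) : frob2 Aᴴ = frob2 A := by
  rw [frob2, Finset.sum_comm, frob2]
  simp

theorem frob2_unitary_mul (u : UU 𝕜 I) (A : Matrix I n 𝕜) :
    frob2 ((u : Matrix I I 𝕜)ᴴ * A) = frob2 A := by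
  rw [frob2_trace, frob2_trace, Matrix.conjTranspose_mul, Matrix.conjTranspose_conjTranspose,
    Matrix.mul_assoc, ← Matrix.mul_assoc (u : Matrix I I 𝕜)]
  have : (u : Matrix I I 𝕜) * (u : Matrix I I 𝕜)ᴴ = 1 := Matrix.mem_unitaryGroup_iff.mp u.2
  rw [this, Matrix.one_mul]

theorem frob2_mul_unitary (v : UU 𝕜 I) (A : Matrix n I 𝕜) :
    frob2 (A * (v : Matrix I I 𝕜)ᴴ) = frob2 A := by
  rw [← frob2_conjTranspose, Matrix.conjTranspose_mul, ← frob2_conjTranspose A,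
    Matrix.conjTranspose_conjTranspose]
  have := frob2_unitary_mul (v⁻¹) Aᴴ
  rw [← this]
  congr 2
  exact (Matrix.conjTranspose_conjTranspose _).symm

theorem frob2_smul (c : ℝ) (A : Matrix m n 𝕜) : frob2 ((c : 𝕜) • A) = c ^ 2 * frob2 A := by
  unfold frob2
  rw [Finset.mul_sum]
  refine Finset.sum_congr rfl fun i _ => ?_
  rw [Finset.mul_sum]
  refine Finset.sum_congr rfl fun j _ => ?_
  rw [Matrix.smul_apply, norm_smul, RCLike.norm_ofReal, mul_pow, sq_abs]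

theorem frob2_parallel (A B C : Matrix m n 𝕜) :
    frob2 (A - B) ≤ 2 * (frob2 (A - C) + frob2 (B - C)) := by
  unfold frob2
  rw [← Finset.sum_add_distrib, Finset.mul_sum]
  refine Finset.sum_le_sum fun i _ => ?_
  rw [← Finset.sum_add_distrib, Finset.mul_sum]
  refine Finset.sum_le_sum fun j _ => ?_
  simp only [Matrix.sub_apply]
  have h1 : A i j - B i j = (A i j - C i j) - (B i j - C i j) := by ring
  rw [h1]
  have h2 := norm_sub_le (A i j - C i j) (B i j - C i j)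
  have h3 := norm_nonneg ((A i j - C i j) - (B i j - C i j))
  nlinarith [sq_nonneg (‖A i j - C i j‖ - ‖B i j - C i j‖)]

theorem exists_proj (Y : Matrix I L 𝕜) : ∃ Q : Matrix I I 𝕜, Qᴴ = Q ∧ Q * Q = Q ∧ Q * Y = 0 ∧
    ∀ z : I → 𝕜, Yᴴ *ᵥ z = 0 → Q *ᵥ z = z := by
  set W : Submodule 𝕜 (EuclideanSpace 𝕜 I) := LinearMap.ker (Matrix.toEuclideanLin Yᴴ) with hW
  have hmem : ∀ z : EuclideanSpace 𝕜 I, z ∈ W ↔ Yᴴ *ᵥ (WithLp.ofLp z) = 0 := by
    intro z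
    rw [hW, LinearMap.mem_ker, Matrix.toLpLin_apply]
    exact WithLp.toLp_eq_zero 2
  have hP := isStarProjection_starProjection (U := W)
  set E := (Matrix.toEuclideanCLM (n := I) (𝕜 := 𝕜)) with hE
  set Q : Matrix I I 𝕜 := E.symm W.starProjection with hQ
  have hEQ : E Q = W.starProjection := E.apply_symm_apply _
  have hQv : ∀ z : I → 𝕜, Q *ᵥ z = WithLp.ofLp (W.starProjection (WithLp.toLp 2 z)) := by
    intro z
    rw [← hEQ]
    rfl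
  have hherm : Qᴴ = Q := by
    have : star Q = Q := by
      apply E.injective
      change E (star Q) = E Q
      rw [map_star E Q, hEQ, hP.isSelfAdjoint.star_eq]
    exact this
  have hidem : Q * Q = Q := by
    apply E.injective
    change E (Q * Q) = E Q
    rw [map_mul E, hEQ, hP.isIdempotentElem.eq]
  have hYQ : Yᴴ * Q = 0 := by
    apply Matrix.ext_iff_mulVec.mpr
    intro z
    rw [← Matrix.mulVec_mulVec, hQv]
    have h1 : W.starProjection (WithLp.toLp 2 z) ∈ W := Submodule.starProjection_apply_mem _ _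
    rw [(hmem _).mp h1, Matrix.zero_mulVec]
  refine ⟨Q, hherm, hidem, ?_, ?_⟩
  · have h2 := congrArg Matrix.conjTranspose hYQ
    rw [Matrix.conjTranspose_mul, Matrix.conjTranspose_conjTranspose, hherm,
      Matrix.conjTranspose_zero] at h2
    exact h2
  · intro z hz
    rw [hQv]
    have h1 : WithLp.toLp 2 z ∈ W := (hmem _).mpr hz
    rw [Submodule.starProjection_eq_self_iff.mpr h1]

theorem exists_sub (N0 : Submodule 𝕜 (EuclideanSpace 𝕜 I)) (s : ℕ) (h : s ≤ finrank 𝕜 N0) :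
    ∃ N ≤ N0, finrank 𝕜 N = s := by
  set v : Fin s → EuclideanSpace 𝕜 I := fun k => (finBasis 𝕜 N0 (Fin.castLE h k) : EuclideanSpace 𝕜 I)
    with hv
  have hli : LinearIndependent 𝕜 v := by
    have h1 := ((finBasis 𝕜 N0).linearIndependent.comp (Fin.castLE h)
      (Fin.castLE_injective h)).map' N0.subtype (Submodule.ker_subtype _)
    exact h1
  refine ⟨Submodule.span 𝕜 (Set.range v), ?_, ?_⟩
  · rw [Submodule.span_le]
    rintro _ ⟨k, rfl⟩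
    exact (finBasis 𝕜 N0 (Fin.castLE h k)).2
  · rw [finrank_span_eq_card hli, Fintype.card_fin]

theorem exists_N (X : Matrix I L 𝕜) (s : ℕ) (h : s + Fintype.card L ≤ Fintype.card I) :
    ∃ N : Submodule 𝕜 (EuclideanSpace 𝕜 I), finrank 𝕜 N = s ∧
      ∀ z ∈ N, Xᴴ *ᵥ (WithLp.ofLp z) = 0 := by
  have h1 := LinearMap.finrank_range_add_finrank_ker (Matrix.toEuclideanLin Xᴴ)
  rw [finrank_euclideanSpace] at h1
  have h2 : finrank 𝕜 (LinearMap.range (Matrix.toEuclideanLin Xᴴ)) ≤ Fintype.card L := by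
    refine (Submodule.finrank_le _).trans ?_
    rw [finrank_euclideanSpace]
  obtain ⟨N, hN, hfin⟩ := exists_sub (LinearMap.ker (Matrix.toEuclideanLin Xᴴ)) s (by omega)
  refine ⟨N, hfin, fun z hz => ?_⟩
  have h3 := hN hz
  rw [LinearMap.mem_ker, Matrix.toLpLin_apply] at h3
  exact (WithLp.toLp_eq_zero 2).mp h3

variable [MeasurableSpace 𝕜] [BorelSpace 𝕜]

theorem frob2_continuous : Continuous (frob2 : Matrix m n 𝕜 → ℝ) := by
  unfold frob2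
  refine continuous_finsetSum _ fun i _ => continuous_finsetSum _ fun j _ => ?_
  exact (continuous_norm.comp (continuous_id.matrix_elem i j)).pow 2

/-- The reflection argument. -/
theorem reflection (B : Matrix I I 𝕜) (X : Matrix I L 𝕜) (Q : Matrix I I 𝕜) (hQ1 : Qᴴ = Q)
    (hQ2 : Q * Q = Q) (hQ3 : Q * (B * X) = 0) (c : Matrix I L 𝕜 → Matrix I I 𝕜)
    (hc : Measurable c) :
    ENNReal.ofReal (frob2 (Q * B)) ≤ ∫⁻ u : UU 𝕜 I, ENNReal.ofReal (frob2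
      ((u : Matrix I I 𝕜)ᴴ * B - c ((u : Matrix I I 𝕜)ᴴ * B * X))) ∂(haarU 𝕜 I) := by
  have hR : (1 - (2:𝕜) • Q) ∈ Matrix.unitaryGroup I 𝕜 := by
    rw [Matrix.mem_unitaryGroup_iff]
    have h1 : star (1 - (2:𝕜) • Q) = 1 - (2:𝕜) • Q := by
      rw [Matrix.star_eq_conjTranspose, Matrix.conjTranspose_sub, Matrix.conjTranspose_one,
        Matrix.conjTranspose_smul, hQ1]
      simp
    rw [h1, Matrix.sub_mul, Matrix.mul_sub, Matrix.mul_sub, Matrix.one_mul, Matrix.mul_one,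
      Matrix.smul_mul, Matrix.mul_smul, Matrix.mul_smul, hQ2]
    simp only [Matrix.one_mul, smul_smul]
    module
  set R : UU 𝕜 I := ⟨_, hR⟩ with hRdef
  set F : UU 𝕜 I → ℝ≥0∞ := fun u => ENNReal.ofReal (frob2
      ((u : Matrix I I 𝕜)ᴴ * B - c ((u : Matrix I I 𝕜)ᴴ * B * X))) with hF
  have hFm : Measurable F := by
    have h1 : Continuous fun u : UU 𝕜 I => (u : Matrix I I 𝕜)ᴴ * B := by
      exact (continuous_subtype_val.matrix_conjTranspose).matrix_mul continuous_const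
    have h2 : Measurable fun u : UU 𝕜 I => (u : Matrix I I 𝕜)ᴴ * B * X :=
      (h1.matrix_mul continuous_const).measurable
    have h3 : Measurable fun u : UU 𝕜 I => c ((u : Matrix I I 𝕜)ᴴ * B * X) := hc.comp h2
    exact (frob2_continuous.measurable.comp (h1.measurable.sub h3)).ennreal_ofReal
  have hinv : ∫⁻ u, F (R * u) ∂(haarU 𝕜 I) = ∫⁻ u, F u ∂(haarU 𝕜 I) :=
    lintegral_mul_left_eq_self F R
  have hsum : ∀ u, ENNReal.ofReal (2 * frob2 (Q * B)) ≤ F u + F (R * u) := by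
    intro u
    have h1 : ((R * u : UU 𝕜 I) : Matrix I I 𝕜)ᴴ * B =
        (u : Matrix I I 𝕜)ᴴ * B - (u : Matrix I I 𝕜)ᴴ * ((2:𝕜) • (Q * B)) := by
      have h2 : ((R * u : UU 𝕜 I) : Matrix I I 𝕜) = (1 - (2:𝕜) • Q) * (u : Matrix I I 𝕜) := rfl
      rw [h2, Matrix.conjTranspose_mul, Matrix.conjTranspose_sub, Matrix.conjTranspose_one,
        Matrix.conjTranspose_smul, hQ1, Matrix.mul_assoc, Matrix.sub_mul, Matrix.one_mul,
        Matrix.mul_sub, Matrix.smul_mul]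
      simp
    have h3 : ((R * u : UU 𝕜 I) : Matrix I I 𝕜)ᴴ * B * X = (u : Matrix I I 𝕜)ᴴ * B * X := by
      rw [h1, Matrix.sub_mul, Matrix.mul_assoc _ ((2:𝕜) • (Q * B)), Matrix.smul_mul,
        Matrix.mul_assoc Q, hQ3]
      simp
    simp only [hF]
    rw [h3, ← ENNReal.ofReal_add (frob2_nonneg _) (frob2_nonneg _)]
    apply ENNReal.ofReal_le_ofReal
    have h4 := frob2_parallel ((u : Matrix I I 𝕜)ᴴ * B) (((R * u : UU 𝕜 I) : Matrix I I 𝕜)ᴴ * B)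
      (c ((u : Matrix I I 𝕜)ᴴ * B * X))
    have h5 : frob2 ((u : Matrix I I 𝕜)ᴴ * B - ((R * u : UU 𝕜 I) : Matrix I I 𝕜)ᴴ * B) =
        4 * frob2 (Q * B) := by
      rw [h1, sub_sub_cancel, frob2_unitary_mul]
      have := frob2_smul (2:ℝ) (Q * B)
      push_cast at this
      rw [this]
      norm_num
    linarith
  have h6 : ENNReal.ofReal (2 * frob2 (Q * B)) ≤ 2 * ∫⁻ u, F u ∂(haarU 𝕜 I) := by
    calc _ = ∫⁻ _ : UU 𝕜 I, ENNReal.ofReal (2 * frob2 (Q * B)) ∂(haarU 𝕜 I) := by simp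
      _ ≤ ∫⁻ u, (F u + F (R * u)) ∂(haarU 𝕜 I) := lintegral_mono hsum
      _ = _ := by rw [lintegral_add_left hFm, hinv, two_mul]
  rw [ENNReal.ofReal_mul (by norm_num), ENNReal.ofReal_ofNat] at h6
  exact (ENNReal.mul_le_mul_iff_right (by norm_num) (by norm_num)).mp h6

theorem gram_unitary (u : UU 𝕜 I) (B : Matrix I n 𝕜) :
    ((u : Matrix I I 𝕜)ᴴ * B)ᴴ * ((u : Matrix I I 𝕜)ᴴ * B) = Bᴴ * B := by
  rw [Matrix.conjTranspose_mul, Matrix.conjTranspose_conjTranspose, Matrix.mul_assoc,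
    ← Matrix.mul_assoc (u : Matrix I I 𝕜)]
  have : (u : Matrix I I 𝕜) * (u : Matrix I I 𝕜)ᴴ = 1 := Matrix.mem_unitaryGroup_iff.mp u.2
  rw [this, Matrix.one_mul]

/-- The scaling matrix. -/
noncomputable def DD (𝕜 : Type*) [RCLike 𝕜] (t : I → ℝ) : Matrix I I 𝕜 :=
  Matrix.diagonal fun i => (t i : 𝕜)

theorem psi_le_frob2 (t : I → ℝ) (ht : ∀ i, t i ≠ 0) (v : UU 𝕜 I) (X : Matrix I L 𝕜)
    (N : Submodule 𝕜 (EuclideanSpace 𝕜 I)) (hN : ∀ z ∈ N, Xᴴ *ᵥ (WithLp.ofLp z) = 0)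
    (Q : Matrix I I 𝕜) (hQ1 : Qᴴ = Q)
    (hQ4 : ∀ z : I → 𝕜, (DD 𝕜 t * (v : Matrix I I 𝕜)ᴴ * X)ᴴ *ᵥ z = 0 → Q *ᵥ z = z) :
    psi t (act v N) ≤ ENNReal.ofReal (frob2 (Q * (DD 𝕜 t * (v : Matrix I I 𝕜)ᴴ))) := by
  rw [← Matrix.mul_assoc, frob2_mul_unitary, frob2, Finset.sum_comm,
    ENNReal.ofReal_sum_of_nonneg (fun _ _ => Finset.sum_nonneg fun _ _ => by positivity), psi]
  refine Finset.sum_le_sum fun j _ => ?_
  refine iSup₂_le fun z hz => ?_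
  apply ENNReal.ofReal_le_ofReal
  obtain ⟨n, hn, rfl⟩ := hz
  set z : EuclideanSpace 𝕜 I := Phi 𝕜 I v⁻¹ n with hzdef
  change 2 * RCLike.re (z j) - wt t z ≤ _
  set y : I → 𝕜 := fun i => ((t i)⁻¹ : ℝ) * z i with hy
  have hDy : DD 𝕜 t *ᵥ y = WithLp.ofLp z := by
    funext i
    rw [DD, Matrix.mulVec_diagonal, hy]
    have := ht i
    simp only
    rw [← mul_assoc, ← RCLike.ofReal_mul, mul_inv_cancel₀ this]
    simp
  have hDherm : (DD 𝕜 t)ᴴ = DD 𝕜 t := by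
    rw [DD, Matrix.diagonal_conjTranspose]
    congr 1
    funext i
    simp
  have hvz : (v : Matrix I I 𝕜) *ᵥ (WithLp.ofLp z) = WithLp.ofLp n := by
    have h1 : WithLp.ofLp z = ((v⁻¹ : UU 𝕜 I) : Matrix I I 𝕜) *ᵥ (WithLp.ofLp n) := rfl
    have h2 : (v : Matrix I I 𝕜) * ((v⁻¹ : UU 𝕜 I) : Matrix I I 𝕜) = 1 :=
      Matrix.mem_unitaryGroup_iff.mp v.2
    rw [h1, Matrix.mulVec_mulVec, h2, Matrix.one_mulVec]
  have hQy : Q *ᵥ y = y := by
    apply hQ4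
    rw [Matrix.conjTranspose_mul, Matrix.conjTranspose_mul, hDherm,
      Matrix.conjTranspose_conjTranspose, ← Matrix.mulVec_mulVec, ← Matrix.mulVec_mulVec, hDy, hvz]
    exact hN n hn
  have hzj : z j = ∑ i, star ((Q * DD 𝕜 t) i j) * y i := by
    have h1 : ((Q * DD 𝕜 t)ᴴ *ᵥ y) j = z j := by
      rw [Matrix.conjTranspose_mul, hQ1, hDherm, ← Matrix.mulVec_mulVec, hQy, hDy]
    rw [← h1, Matrix.mulVec, dotProduct]
    rfl
  have hwt : wt t z = ∑ i, ‖y i‖ ^ 2 := by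
    rw [wt]
    refine Finset.sum_congr rfl fun i _ => ?_
    simp only [hy]
    rw [norm_mul, RCLike.norm_ofReal, mul_pow, sq_abs, inv_pow]
    field_simp
  rw [hzj, hwt, map_sum, Finset.mul_sum, ← Finset.sum_sub_distrib]
  refine Finset.sum_le_sum fun i _ => ?_
  have h3 : RCLike.re (star ((Q * DD 𝕜 t) i j) * y i) ≤ ‖(Q * DD 𝕜 t) i j‖ * ‖y i‖ := by
    refine (RCLike.re_le_norm _).trans ?_
    rw [norm_mul, norm_star]
  nlinarith [sq_nonneg (‖(Q * DD 𝕜 t) i j‖ - ‖y i‖)]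

/-- The Bayesian lower bound for fixed weights. -/
theorem bayes (t : I → ℝ) (ht : ∀ i, t i ≠ 0) (s : ℕ)
    (hs : s + Fintype.card L ≤ Fintype.card I) {S : Type*} [MeasurableSpace S]
    (P : Measure S) [IsProbabilityMeasure P] (Xr : S → Matrix I L 𝕜) (hXr : Measurable Xr)
    (alg : S × Matrix I L 𝕜 × Matrix I L 𝕜 → Matrix I I 𝕜) (halg : Measurable alg)
    (K : ℝ≥0∞)
    (hK : ∀ u v : UU 𝕜 I, ∫⁻ ω, ENNReal.ofReal (frob2
      ((u : Matrix I I 𝕜)ᴴ * (DD 𝕜 t * (v : Matrix I I 𝕜)ᴴ) -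
        alg (ω, (u : Matrix I I 𝕜)ᴴ * (DD 𝕜 t * (v : Matrix I I 𝕜)ᴴ) * Xr ω,
          ((u : Matrix I I 𝕜)ᴴ * (DD 𝕜 t * (v : Matrix I I 𝕜)ᴴ))ᴴ *
            ((u : Matrix I I 𝕜)ᴴ * (DD 𝕜 t * (v : Matrix I I 𝕜)ᴴ)) * Xr ω))) ∂P ≤ K) :
    ∫⁻ G, psi t (Submodule.span 𝕜 (Set.range G)) ∂(γ 𝕜 I s) ≤ K := by
  set f : (UU 𝕜 I × UU 𝕜 I) → S → ℝ≥0∞ := fun p ω => ENNReal.ofReal (frob2
      ((p.1 : Matrix I I 𝕜)ᴴ * (DD 𝕜 t * (p.2 : Matrix I I 𝕜)ᴴ) -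
        alg (ω, (p.1 : Matrix I I 𝕜)ᴴ * (DD 𝕜 t * (p.2 : Matrix I I 𝕜)ᴴ) * Xr ω,
          ((p.1 : Matrix I I 𝕜)ᴴ * (DD 𝕜 t * (p.2 : Matrix I I 𝕜)ᴴ))ᴴ *
            ((p.1 : Matrix I I 𝕜)ᴴ * (DD 𝕜 t * (p.2 : Matrix I I 𝕜)ᴴ)) * Xr ω))) with hf
  have hfm : Measurable (Function.uncurry f) := by
    have h1 : Continuous fun q : UU 𝕜 I × UU 𝕜 I =>
        (q.1 : Matrix I I 𝕜)ᴴ * (DD 𝕜 t * (q.2 : Matrix I I 𝕜)ᴴ) := by
      refine Continuous.matrix_mul ?_ ?_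
      · exact (continuous_subtype_val.comp continuous_fst).matrix_conjTranspose
      · exact continuous_const.matrix_mul
          (continuous_subtype_val.comp continuous_snd).matrix_conjTranspose
    have h0 : Measurable fun q : (UU 𝕜 I × UU 𝕜 I) × S =>
        (q.1.1 : Matrix I I 𝕜)ᴴ * (DD 𝕜 t * (q.1.2 : Matrix I I 𝕜)ᴴ) :=
      h1.measurable.comp measurable_fst
    have h0' : Measurable fun q : (UU 𝕜 I × UU 𝕜 I) × S => Xr q.2 := hXr.comp measurable_snd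
    have hmIL : Measurable fun p : Matrix I I 𝕜 × Matrix I L 𝕜 => p.1 * p.2 :=
      (continuous_fst.matrix_mul continuous_snd).measurable
    have h2 : Measurable fun q : (UU 𝕜 I × UU 𝕜 I) × S =>
        (q.1.1 : Matrix I I 𝕜)ᴴ * (DD 𝕜 t * (q.1.2 : Matrix I I 𝕜)ᴴ) * Xr q.2 :=
      hmIL.comp (h0.prodMk h0')
    have h0'' : Measurable fun q : (UU 𝕜 I × UU 𝕜 I) × S =>
        ((q.1.1 : Matrix I I 𝕜)ᴴ * (DD 𝕜 t * (q.1.2 : Matrix I I 𝕜)ᴴ))ᴴ *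
          ((q.1.1 : Matrix I I 𝕜)ᴴ * (DD 𝕜 t * (q.1.2 : Matrix I I 𝕜)ᴴ)) :=
      (h1.matrix_conjTranspose.matrix_mul h1).measurable.comp measurable_fst
    have h3 : Measurable fun q : (UU 𝕜 I × UU 𝕜 I) × S =>
        ((q.1.1 : Matrix I I 𝕜)ᴴ * (DD 𝕜 t * (q.1.2 : Matrix I I 𝕜)ᴴ))ᴴ *
          ((q.1.1 : Matrix I I 𝕜)ᴴ * (DD 𝕜 t * (q.1.2 : Matrix I I 𝕜)ᴴ)) * Xr q.2 :=
      hmIL.comp (h0''.prodMk h0')
    have h4 : Measurable fun q : (UU 𝕜 I × UU 𝕜 I) × S =>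
        alg (q.2, (q.1.1 : Matrix I I 𝕜)ᴴ * (DD 𝕜 t * (q.1.2 : Matrix I I 𝕜)ᴴ) * Xr q.2,
          ((q.1.1 : Matrix I I 𝕜)ᴴ * (DD 𝕜 t * (q.1.2 : Matrix I I 𝕜)ᴴ))ᴴ *
            ((q.1.1 : Matrix I I 𝕜)ᴴ * (DD 𝕜 t * (q.1.2 : Matrix I I 𝕜)ᴴ)) * Xr q.2) :=
      halg.comp (measurable_snd.prodMk (h2.prodMk h3))
    exact (frob2_continuous.measurable.comp (h0.sub h4)).ennreal_ofReal
  have hX : ∀ ω : S, ∫⁻ G, psi t (Submodule.span 𝕜 (Set.range G)) ∂(γ 𝕜 I s) ≤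
      ∫⁻ p, f p ω ∂((haarU 𝕜 I).prod (haarU 𝕜 I)) := by
    intro ω
    obtain ⟨N, hN, hNX⟩ := exists_N (Xr ω) s hs
    rw [← psi_average t s N hN, lintegral_prod_symm _ (by
      exact (hfm.comp (measurable_id.prodMk measurable_const)).aemeasurable)]
    refine lintegral_mono fun v => ?_
    obtain ⟨Q, hQ1, hQ2, hQ3, hQ4⟩ := exists_proj (DD 𝕜 t * (v : Matrix I I 𝕜)ᴴ * Xr ω)
    refine (psi_le_frob2 t ht v (Xr ω) N hNX Q hQ1 hQ4).trans ?_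
    have hc : Measurable fun Y : Matrix I L 𝕜 => alg (ω, Y,
        (DD 𝕜 t * (v : Matrix I I 𝕜)ᴴ)ᴴ * (DD 𝕜 t * (v : Matrix I I 𝕜)ᴴ) * Xr ω) :=
      halg.comp (measurable_const.prodMk (measurable_id.prodMk measurable_const))
    refine (reflection (DD 𝕜 t * (v : Matrix I I 𝕜)ᴴ) (Xr ω) Q hQ1 hQ2 hQ3 _ hc).trans ?_
    refine le_of_eq ?_
    refine lintegral_congr fun u => ?_
    simp only [hf]
    rw [gram_unitary u (DD 𝕜 t * (v : Matrix I I 𝕜)ᴴ)]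
  calc ∫⁻ G, psi t (Submodule.span 𝕜 (Set.range G)) ∂(γ 𝕜 I s)
      = ∫⁻ _ : S, (∫⁻ G, psi t (Submodule.span 𝕜 (Set.range G)) ∂(γ 𝕜 I s)) ∂P := by simp
    _ ≤ ∫⁻ ω, (∫⁻ p, f p ω ∂((haarU 𝕜 I).prod (haarU 𝕜 I))) ∂P := lintegral_mono hX
    _ = ∫⁻ p, (∫⁻ ω, f p ω ∂P) ∂((haarU 𝕜 I).prod (haarU 𝕜 I)) := by
        rw [lintegral_lintegral_swap]
        exact (hfm.comp measurable_swap).aemeasurable
    _ ≤ ∫⁻ _ : UU 𝕜 I × UU 𝕜 I, K ∂((haarU 𝕜 I).prod (haarU 𝕜 I)) :=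
        lintegral_mono fun p => hK p.1 p.2
    _ = K := by simp

end Pool.Agent.Helper41.RSVD
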