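import Mathlib
import Pool.Agent.Helper41.RSVD.Core

/-! The final theorem (helper41, for MP_569b71_an; paper proof by helper57). -/

namespace Pool.Agent.Helper41.RSVD

open MeasureTheory ProbabilityTheory Module Filter Topology Matrix
open scoped ENNReal NNReal RealInnerProductSpace

set_option linter.unusedSectionVars false

variable {𝕜 : Type*} [RCLike 𝕜]
variable {m n : Type*} [Fintype m] [Fintype n] [DecidableEq m] [DecidableEq n]
variable {I : Type*} [Fintype I] [DecidableEq I] {L : Type*} [Fintype L] [DecidableEq L]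

/-- The squared Frobenius distance of `A` to the matrices of rank at most `q`, that is, the squared
error `‖A - ⟦A⟧_q‖_F^2` of a best rank-`q` approximation of `A`. -/
noncomputable def tailSq {𝕜 m n : Type*} [RCLike 𝕜] [Fintype m] [Fintype n] [DecidableEq n]
    (q : ℕ) (A : Matrix m n 𝕜) : ℝ :=
  ⨅ B : {B : Matrix m n 𝕜 // B.rank ≤ q}, frob2 (A - B.1)

theorem frob2_mul_le (A : Matrix m I 𝕜) (x : Matrix I n 𝕜) :
    frob2 (A * x) ≤ frob2 A * frob2 x := by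
  unfold frob2
  have h1 : ∀ i j, ‖(A * x) i j‖ ^ 2 ≤ (∑ k, ‖A i k‖ ^ 2) * (∑ k, ‖x k j‖ ^ 2) := by
    intro i j
    rw [Matrix.mul_apply]
    have h2 : ‖∑ k, A i k * x k j‖ ≤ ∑ k, ‖A i k‖ * ‖x k j‖ := by
      refine (norm_sum_le _ _).trans (le_of_eq ?_)
      simp_rw [norm_mul]
    calc ‖∑ k, A i k * x k j‖ ^ 2 ≤ (∑ k, ‖A i k‖ * ‖x k j‖) ^ 2 := by gcongr
      _ ≤ _ := Finset.sum_mul_sq_le_sq_mul_sq _ _ _
  calc ∑ i, ∑ j, ‖(A * x) i j‖ ^ 2 ≤ ∑ i, ∑ j, (∑ k, ‖A i k‖ ^ 2) * (∑ k, ‖x k j‖ ^ 2) :=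
        Finset.sum_le_sum fun i _ => Finset.sum_le_sum fun j _ => h1 i j
    _ = _ := by
      rw [Finset.sum_mul]
      refine Finset.sum_congr rfl fun i _ => ?_
      rw [← Finset.mul_sum, Finset.sum_comm]

theorem frob2_mul_right (A : Matrix m I 𝕜) (U : Matrix n I 𝕜) (hU : Uᴴ * U = 1) :
    frob2 (A * Uᴴ) = frob2 A := by
  have h := frob2_trace (A * Uᴴ)ᴴ
  rw [frob2_conjTranspose] at h
  rw [h, Matrix.conjTranspose_conjTranspose, Matrix.conjTranspose_mul,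
    Matrix.conjTranspose_conjTranspose, Matrix.mul_assoc, ← Matrix.mul_assoc Uᴴ, hU, Matrix.one_mul,
    ← frob2_conjTranspose A, frob2_trace, Matrix.conjTranspose_conjTranspose]

theorem frob2_mul_left (A : Matrix I n 𝕜) (U : Matrix m I 𝕜) (hU : Uᴴ * U = 1) :
    frob2 (U * A) = frob2 A := by
  rw [frob2_trace, frob2_trace, Matrix.conjTranspose_mul, Matrix.mul_assoc, ← Matrix.mul_assoc Uᴴ,
    hU, Matrix.one_mul]

/-- The embedding matrix. -/
def emb (𝕜 : Type*) [RCLike 𝕜] (e : I ↪ m) : Matrix m I 𝕜 := Matrix.of fun i k => if i = e k then 1 else 0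

theorem emb_mul_self (e : I ↪ m) : (emb 𝕜 e)ᴴ * emb 𝕜 e = 1 := by
  ext i j
  rw [Matrix.mul_apply, Matrix.one_apply]
  simp only [emb, Matrix.conjTranspose_apply, Matrix.of_apply]
  simp only [apply_ite star, star_one, star_zero, ite_mul, one_mul, zero_mul]
  rw [Finset.sum_ite_eq' Finset.univ]
  simp [e.injective.eq_iff]

theorem emb_conj_mul_apply (e : I ↪ m) (A : Matrix m n 𝕜) (i : I) (j : n) :
    ((emb 𝕜 e)ᴴ * A) i j = A (e i) j := by
  rw [Matrix.mul_apply]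
  simp only [emb, Matrix.conjTranspose_apply, Matrix.of_apply]
  simp only [apply_ite star, star_one, star_zero, ite_mul, one_mul, zero_mul]
  rw [Finset.sum_ite_eq' Finset.univ]
  simp

theorem frob2_emb_conj_mul (e : I ↪ m) (A : Matrix m n 𝕜) :
    frob2 ((emb 𝕜 e)ᴴ * A) ≤ frob2 A := by
  unfold frob2
  simp_rw [emb_conj_mul_apply]
  rw [← Finset.sum_map Finset.univ e (fun i => ∑ j, ‖A i j‖ ^ 2)]
  exact Finset.sum_le_univ_sum_of_nonneg fun i => Finset.sum_nonneg fun j _ => by positivity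

theorem frob2_compress (e1 : I ↪ m) (e2 : I ↪ n) (A : Matrix m n 𝕜) :
    frob2 ((emb 𝕜 e1)ᴴ * A * emb 𝕜 e2) ≤ frob2 A := by
  have h1 : frob2 ((emb 𝕜 e1)ᴴ * A * emb 𝕜 e2) ≤ frob2 ((emb 𝕜 e1)ᴴ * A) := by
    rw [← frob2_conjTranspose, Matrix.conjTranspose_mul, ← frob2_conjTranspose ((emb 𝕜 e1)ᴴ * A)]
    exact frob2_emb_conj_mul e2 _
  exact h1.trans (frob2_emb_conj_mul e1 A)

theorem frob2_DD (t : I → ℝ) : frob2 (DD 𝕜 t) = ∑ i, t i ^ 2 := by
  unfold frob2 DD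
  refine Finset.sum_congr rfl fun i _ => ?_
  rw [Finset.sum_eq_single i]
  · simp
  · intro j _ hj
    rw [Matrix.diagonal_apply_ne _ (Ne.symm hj)]
    simp
  · simp

/-- The matrices of the prior. -/
noncomputable def AA (e1 : I ↪ m) (e2 : I ↪ n) (t : I → ℝ) (u v : UU 𝕜 I) : Matrix m n 𝕜 :=
  emb 𝕜 e1 * ((u : Matrix I I 𝕜)ᴴ * (DD 𝕜 t * (v : Matrix I I 𝕜)ᴴ)) * (emb 𝕜 e2)ᴴ

theorem frob2_AA (e1 : I ↪ m) (e2 : I ↪ n) (t : I → ℝ) (u v : UU 𝕜 I) :
    frob2 (AA e1 e2 t u v) = ∑ i, t i ^ 2 := by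
  rw [AA, frob2_mul_right _ _ (emb_mul_self e2), frob2_mul_left _ _ (emb_mul_self e1),
    frob2_unitary_mul, frob2_mul_unitary, frob2_DD]

theorem AA_sub (e1 : I ↪ m) (e2 : I ↪ n) (t t' : I → ℝ) (u v : UU 𝕜 I) :
    AA e1 e2 t u v - AA e1 e2 t' u v = AA e1 e2 (fun i => t i - t' i) u v := by
  unfold AA
  rw [← Matrix.sub_mul, ← Matrix.mul_sub, ← Matrix.mul_sub, ← Matrix.sub_mul]
  congr 4
  unfold DD
  rw [Matrix.diagonal_sub]
  congr 1
  funext i
  simp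

theorem rank_AA_le (e1 : I ↪ m) (e2 : I ↪ n) (t : I → ℝ) (u v : UU 𝕜 I) :
    (AA e1 e2 t u v).rank ≤ (DD 𝕜 t).rank := by
  unfold AA
  exact (Matrix.rank_mul_le_left _ _).trans ((Matrix.rank_mul_le_right _ _).trans
    ((Matrix.rank_mul_le_right _ _).trans (Matrix.rank_mul_le_left _ _)))

theorem compress_AA (e1 : I ↪ m) (e2 : I ↪ n) (t : I → ℝ) (u v : UU 𝕜 I) :
    (emb 𝕜 e1)ᴴ * AA e1 e2 t u v * emb 𝕜 e2 =
      (u : Matrix I I 𝕜)ᴴ * (DD 𝕜 t * (v : Matrix I I 𝕜)ᴴ) := by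
  unfold AA
  rw [← Matrix.mul_assoc, ← Matrix.mul_assoc, emb_mul_self, Matrix.one_mul, Matrix.mul_assoc,
    emb_mul_self, Matrix.mul_one]

theorem AA_mul (e1 : I ↪ m) (e2 : I ↪ n) (t : I → ℝ) (u v : UU 𝕜 I) (X : Matrix n L 𝕜) :
    AA e1 e2 t u v * X =
      emb 𝕜 e1 * ((u : Matrix I I 𝕜)ᴴ * (DD 𝕜 t * (v : Matrix I I 𝕜)ᴴ) * ((emb 𝕜 e2)ᴴ * X)) := by
  unfold AA
  simp only [Matrix.mul_assoc]

theorem AA_gram (e1 : I ↪ m) (e2 : I ↪ n) (t : I → ℝ) (u v : UU 𝕜 I) (X : Matrix n L 𝕜) :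
    (AA e1 e2 t u v)ᴴ * AA e1 e2 t u v * X = emb 𝕜 e2 *
      (((u : Matrix I I 𝕜)ᴴ * (DD 𝕜 t * (v : Matrix I I 𝕜)ᴴ))ᴴ *
        ((u : Matrix I I 𝕜)ᴴ * (DD 𝕜 t * (v : Matrix I I 𝕜)ᴴ)) * ((emb 𝕜 e2)ᴴ * X)) := by
  rw [Matrix.mul_assoc, AA_mul]
  unfold AA
  rw [Matrix.conjTranspose_mul, Matrix.conjTranspose_mul (emb 𝕜 e1),
    Matrix.conjTranspose_conjTranspose, Matrix.mul_assoc (emb 𝕜 e2), Matrix.mul_assoc _ (emb 𝕜 e1)ᴴ,
    ← Matrix.mul_assoc (emb 𝕜 e1)ᴴ, emb_mul_self, Matrix.one_mul, ← Matrix.mul_assoc _ _ ((emb 𝕜 e2)ᴴ * X)]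

theorem rank_AA (e1 : I ↪ m) (e2 : I ↪ n) (t : I → ℝ) (ht : ∀ i, t i ≠ 0) (u v : UU 𝕜 I) :
    (AA e1 e2 t u v).rank = Fintype.card I := by
  apply le_antisymm
  · refine (rank_AA_le e1 e2 t u v).trans ?_
    exact Matrix.rank_le_card_width _
  · have h1 : ((u : Matrix I I 𝕜)ᴴ * (DD 𝕜 t * (v : Matrix I I 𝕜)ᴴ)).rank = Fintype.card I := by
      apply Matrix.rank_of_isUnit
      have hu : IsUnit (u : Matrix I I 𝕜)ᴴ := by
        refine IsUnit.of_mul_eq_one (u : Matrix I I 𝕜) ?_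
        exact Matrix.mem_unitaryGroup_iff'.mp u.2
      have hv : IsUnit (v : Matrix I I 𝕜)ᴴ := by
        refine IsUnit.of_mul_eq_one (v : Matrix I I 𝕜) ?_
        exact Matrix.mem_unitaryGroup_iff'.mp v.2
      have hD : IsUnit (DD 𝕜 t) := by
        rw [DD, Matrix.isUnit_diagonal, Pi.isUnit_iff]
        intro i
        simpa using ht i
      exact hu.mul (hD.mul hv)
    rw [← h1, ← compress_AA e1 e2]
    exact (Matrix.rank_mul_le_left _ _).trans (Matrix.rank_mul_le_right _ _)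

theorem tail_pos (q : ℕ) (hq : q < Fintype.card I) (e1 : I ↪ m) (e2 : I ↪ n) (t : I → ℝ)
    (ht : ∀ i, 1 ≤ t i) (u v : UU 𝕜 I) : 0 < tailSq q (AA e1 e2 t u v) := by
  have key : ∀ B : Matrix m n 𝕜, B.rank ≤ q → 1 ≤ frob2 (AA e1 e2 t u v - B) := by
    intro B hB
    have h1 := frob2_compress e1 e2 (AA e1 e2 t u v - B)
    rw [Matrix.mul_sub, Matrix.sub_mul, compress_AA] at h1
    refine le_trans ?_ h1
    set B' : Matrix I I 𝕜 := (emb 𝕜 e1)ᴴ * B * emb 𝕜 e2 with hB'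
    have hrank : B'.rank ≤ q :=
      ((Matrix.rank_mul_le_left _ _).trans (Matrix.rank_mul_le_right _ _)).trans hB
    have hker : ∃ x : I → 𝕜, x ≠ 0 ∧ B' *ᵥ x = 0 := by
      by_contra hcon
      push Not at hcon
      have hinj : Function.Injective B'.mulVec := by
        rw [← Matrix.coe_mulVecLin, injective_iff_map_eq_zero]
        intro x hx
        by_contra hx0
        exact hcon x hx0 hx
      have h2 : B'.rank = Fintype.card I := by
        rw [Matrix.rank]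
        rw [LinearMap.finrank_range_of_inj hinj]
        simp
      omega
    obtain ⟨x, hx0, hx⟩ := hker
    set xm : Matrix I (Fin 1) 𝕜 := Matrix.of fun i _ => x i with hxm
    have hxpos : 0 < frob2 xm := by
      unfold frob2
      obtain ⟨i, hi⟩ := Function.ne_iff.mp hx0
      refine Finset.sum_pos' (fun i _ => Finset.sum_nonneg fun j _ => by positivity) ⟨i, Finset.mem_univ _, ?_⟩
      rw [Fin.sum_univ_one]
      have : 0 < ‖x i‖ := norm_pos_iff.mpr hi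
      simp only [hxm, Matrix.of_apply]
      positivity
    have hBx : B' * xm = 0 := by
      ext i j
      have := congrFun hx i
      rw [Matrix.mul_apply]
      exact this
    have h3 := frob2_mul_le ((u : Matrix I I 𝕜)ᴴ * (DD 𝕜 t * (v : Matrix I I 𝕜)ᴴ) - B') xm
    rw [Matrix.sub_mul, hBx, sub_zero, Matrix.mul_assoc, frob2_unitary_mul, Matrix.mul_assoc] at h3
    have h4 : frob2 xm ≤ frob2 (DD 𝕜 t * ((v : Matrix I I 𝕜)ᴴ * xm)) := by
      rw [← frob2_unitary_mul v xm]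
      unfold frob2
      refine Finset.sum_le_sum fun i _ => Finset.sum_le_sum fun j _ => ?_
      rw [DD, Matrix.diagonal_mul, norm_mul, RCLike.norm_ofReal, mul_pow, sq_abs]
      have h5 : 1 ≤ t i ^ 2 := by nlinarith [ht i]
      nlinarith [sq_nonneg ‖((v : Matrix I I 𝕜)ᴴ * xm) i j‖]
    have h6 : frob2 xm ≤ frob2 ((u : Matrix I I 𝕜)ᴴ * (DD 𝕜 t * (v : Matrix I I 𝕜)ᴴ) - B') * frob2 xm :=
      h4.trans h3
    by_contra hcon
    push Not at hcon
    nlinarith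
  have hne : Nonempty {B : Matrix m n 𝕜 // B.rank ≤ q} := ⟨⟨0, by simp⟩⟩
  exact lt_of_lt_of_le one_pos (le_ciInf fun B => key B.1 B.2)

theorem tail_le {I1 I2 : Type*} [Fintype I1] [Fintype I2] [DecidableEq I1] [DecidableEq I2]
    (e1 : I1 ⊕ I2 ↪ m) (e2 : I1 ⊕ I2 ↪ n) (T : ℝ) (u v : UU 𝕜 (I1 ⊕ I2)) :
    tailSq (Fintype.card I1) (AA e1 e2 (tT I1 I2 T) u v) ≤ Fintype.card I2 := by
  set t0 : I1 ⊕ I2 → ℝ := Sum.elim (fun _ => T) (fun _ => 0) with ht0
  have hrank : (AA e1 e2 t0 u v).rank ≤ Fintype.card I1 := by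
    refine (rank_AA_le e1 e2 t0 u v).trans ?_
    classical
    rw [DD, Matrix.rank_diagonal]
    refine Fintype.card_le_of_injective (fun i : {i : I1 ⊕ I2 // ((t0 i : ℝ) : 𝕜) ≠ 0} =>
      (match i with
      | ⟨Sum.inl a, _⟩ => a
      | ⟨Sum.inr b, h⟩ => absurd (by simp [ht0]) h : I1)) ?_
    rintro ⟨a | a, ha⟩ ⟨b | b, hb⟩ hab
    · simpa using hab
    · exact absurd (by simp [ht0]) hb
    · exact absurd (by simp [ht0]) ha
    · exact absurd (by simp [ht0]) ha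
  have h1 := ciInf_le (f := fun B : {B : Matrix m n 𝕜 // B.rank ≤ Fintype.card I1} =>
    frob2 (AA e1 e2 (tT I1 I2 T) u v - B.1)) ⟨0, by
      rintro _ ⟨B, rfl⟩
      exact frob2_nonneg _⟩ ⟨AA e1 e2 t0 u v, hrank⟩
  refine h1.trans ?_
  simp only
  rw [AA_sub, frob2_AA, Fintype.sum_sum_type]
  simp [tT, ht0]

variable [MeasurableSpace 𝕜] [BorelSpace 𝕜]

theorem general (d n l q r α : ℕ) (hβ : finrank ℝ 𝕜 * (α + 1) = 2) (hl : q + α < l)
    (hlr : l ≤ r) (hrd : r ≤ d) (hrn : r ≤ n) {S : Type*} [MeasurableSpace S] (μ : Measure S)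
    [IsProbabilityMeasure μ] (Om : S → Matrix (Fin n) (Fin l) 𝕜) (hOm : Measurable Om)
    (alg : Matrix (Fin n) (Fin l) 𝕜 × Matrix (Fin d) (Fin l) 𝕜 × Matrix (Fin n) (Fin l) 𝕜 →
      Matrix (Fin d) (Fin n) 𝕜) (halg : Measurable alg) :
    ENNReal.ofReal (((r : ℝ) - l) / (r - q) * (1 + q / (l - q - α))) ≤
      ⨆ A : {A : Matrix (Fin d) (Fin n) 𝕜 // A.rank = r ∧ 0 < tailSq q A},
        (∫⁻ ω, ENNReal.ofReal (frob2 (A.1 - alg (Om ω, A.1 * Om ω, A.1ᴴ * A.1 * Om ω))) ∂μ) /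
          ENNReal.ofReal (tailSq q A.1) := by
  rcases hlr.eq_or_lt with heq | hlt
  · have : ((r : ℝ) - l) = 0 := by rw [heq]; ring
    rw [this]
    simp
  obtain ⟨s, hs⟩ : ∃ s, r = l + s + 1 := ⟨r - l - 1, by omega⟩
  obtain ⟨p, hp⟩ : ∃ p, r = q + p := ⟨r - q, by omega⟩
  have hc1 : Fintype.card (Fin q) = q := Fintype.card_fin q
  have hc2 : Fintype.card (Fin p) = p := Fintype.card_fin p
  have hcI : Fintype.card (Fin q ⊕ Fin p) = r := by rw [Fintype.card_sum, hc1, hc2, hp]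
  have e1 : Fin q ⊕ Fin p ↪ Fin d := (Fintype.equivFin (Fin q ⊕ Fin p)).toEmbedding.trans
    (Fin.castLEEmb (by rw [hcI]; exact hrd))
  have e2 : Fin q ⊕ Fin p ↪ Fin n := (Fintype.equivFin (Fin q ⊕ Fin p)).toEmbedding.trans
    (Fin.castLEEmb (by rw [hcI]; exact hrn))
  obtain ⟨e, he⟩ : ∃ e, l = q + α + 1 + e := ⟨l - q - α - 1, by omega⟩
  set β := finrank ℝ 𝕜 with hβdef
  have hβpos : 0 < β := by
    rcases Nat.eq_zero_or_pos β with h | h
    · rw [h] at hβ; omega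
    · exact h
  set κ := β * (e + 1) with hκdef
  have hκ : 0 < κ := by positivity
  have hκ2 : κ + 2 = β * (Fintype.card (Fin p) - s) := by
    rw [hc2, hκdef, ← hβ, ← Nat.mul_add]
    congr 1
    omega
  set K0 := ⨆ A : {A : Matrix (Fin d) (Fin n) 𝕜 // A.rank = r ∧ 0 < tailSq q A},
        (∫⁻ ω, ENNReal.ofReal (frob2 (A.1 - alg (Om ω, A.1 * Om ω, A.1ᴴ * A.1 * Om ω))) ∂μ) /
          ENNReal.ofReal (tailSq q A.1) with hK0
  have hmain : ENNReal.ofReal ((s + 1) * (1 + (β * Fintype.card (Fin q)) / κ)) ≤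
      K0 * ENNReal.ofReal p := by
    refine main_limit s κ hκ hκ2 _ fun N => ?_
    set T : ℝ := (N : ℝ) + 1 with hT
    have hT1 : 1 ≤ T := by
      have : (0:ℝ) ≤ N := Nat.cast_nonneg N
      linarith
    have ht : ∀ i, 1 ≤ tT (Fin q) (Fin p) T i := by
      rintro (i | i)
      · exact hT1
      · exact le_refl _
    have ht0 : ∀ i, tT (Fin q) (Fin p) T i ≠ 0 := fun i => (lt_of_lt_of_le one_pos (ht i)).ne'
    have hXr : Measurable fun ω => (emb 𝕜 e2)ᴴ * Om ω :=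
      (Continuous.measurable (continuous_const.matrix_mul continuous_id)).comp hOm
    refine bayes (L := Fin l) (tT (Fin q) (Fin p) T) ht0 (s + 1) (by rw [hcI, Fintype.card_fin]; omega) μ
      (fun ω => (emb 𝕜 e2)ᴴ * Om ω) hXr
      (fun x => (emb 𝕜 e1)ᴴ * alg (Om x.1, emb 𝕜 e1 * x.2.1, emb 𝕜 e2 * x.2.2) * emb 𝕜 e2) ?_ _ ?_
    · have h1 : Measurable fun x : S × Matrix (Fin q ⊕ Fin p) (Fin l) 𝕜 × Matrix (Fin q ⊕ Fin p) (Fin l) 𝕜 =>
          emb 𝕜 e1 * x.2.1 :=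
        (Continuous.measurable (continuous_const.matrix_mul continuous_fst)).comp measurable_snd
      have h2 : Measurable fun x : S × Matrix (Fin q ⊕ Fin p) (Fin l) 𝕜 × Matrix (Fin q ⊕ Fin p) (Fin l) 𝕜 =>
          emb 𝕜 e2 * x.2.2 :=
        (Continuous.measurable (continuous_const.matrix_mul continuous_snd)).comp measurable_snd
      have h3 := halg.comp ((hOm.comp measurable_fst).prodMk (h1.prodMk h2))
      have h4 : Continuous fun M : Matrix (Fin d) (Fin n) 𝕜 => (emb 𝕜 e1)ᴴ * M * emb 𝕜 e2 :=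
        (continuous_const.matrix_mul continuous_id).matrix_mul continuous_const
      exact h4.measurable.comp h3
    · intro u v
      have hrank : (AA e1 e2 (tT (Fin q) (Fin p) T) u v).rank = r := by rw [rank_AA e1 e2 _ ht0, hcI]
      have htp : 0 < tailSq q (AA e1 e2 (tT (Fin q) (Fin p) T) u v) :=
        tail_pos q (by rw [hcI]; omega) e1 e2 _ ht u v
      have htl : tailSq q (AA e1 e2 (tT (Fin q) (Fin p) T) u v) ≤ p := by
        have := tail_le e1 e2 T u v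
        rw [hc1, hc2] at this
        exact this
      have h1 := le_iSup (fun A : {A : Matrix (Fin d) (Fin n) 𝕜 // A.rank = r ∧ 0 < tailSq q A} =>
        (∫⁻ ω, ENNReal.ofReal (frob2 (A.1 - alg (Om ω, A.1 * Om ω, A.1ᴴ * A.1 * Om ω))) ∂μ) /
          ENNReal.ofReal (tailSq q A.1)) ⟨AA e1 e2 (tT (Fin q) (Fin p) T) u v, hrank, htp⟩
      rw [← hK0] at h1
      simp only at h1
      rw [ENNReal.div_le_iff (by simpa using htp) ENNReal.ofReal_ne_top] at h1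
      refine le_trans ?_ (h1.trans (by gcongr))
      refine lintegral_mono fun ω => ?_
      apply ENNReal.ofReal_le_ofReal
      refine le_trans (le_of_eq ?_) (frob2_compress e1 e2 _)
      congr 1
      rw [Matrix.mul_sub, Matrix.sub_mul, compress_AA]
      congr 1
      simp only
      rw [AA_mul, AA_gram]
  have hp0 : (0:ℝ) < p := by
    have : 0 < p := by omega
    exact_mod_cast this
  have hfinal : ENNReal.ofReal (((r : ℝ) - l) / (r - q) * (1 + q / (l - q - α))) =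
      ENNReal.ofReal ((s + 1) * (1 + (β * Fintype.card (Fin q)) / κ)) / ENNReal.ofReal p := by
    rw [← ENNReal.ofReal_div_of_pos hp0]
    congr 1
    have hr1 : (r : ℝ) - l = s + 1 := by rw [hs]; push_cast; ring
    have hr2 : (r : ℝ) - q = p := by rw [hp]; push_cast; ring
    have hr3 : (l : ℝ) - q - α = e + 1 := by rw [he]; push_cast; ring
    rw [hr1, hr2, hr3, hc1, hκdef]
    push_cast
    have hβ0 : (β : ℝ) ≠ 0 := by exact_mod_cast hβpos.ne'
    have he0 : (e : ℝ) + 1 ≠ 0 := by positivity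
    field_simp
  rw [hfinal]
  exact ENNReal.div_le_of_le_mul hmain

end Pool.Agent.Helper41.RSVD
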